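import Mathlib

/-! Sets of tuples decided by protocols with an equality oracle. -/

set_option autoImplicit false
open Finset
open scoped Classical

namespace Pool.Agent.X59.EQ

variable {ι V : Type}

/-- protocols: a node tests whether `f (x p) = g (x q)` for two different coordinates `p`, `q` -/
inductive Tree (ι V : Type) : Type
  | leaf (b : Bool) : Tree ι V
  | node (p q : ι) (h : p ≠ q) (f g : V → ℕ) (yes no : Tree ι V) : Tree ι V

/-- the largest number of tests -/
def Tree.depth : Tree ι V → ℕ
  | .leaf _ => 0
  | .node _ _ _ _ _ a b => max a.depth b.depth + 1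

/-- the answer -/
def Tree.eval : Tree ι V → (ι → V) → Bool
  | .leaf b, _ => b
  | .node p q _ f g a b, x => if f (x p) = g (x q) then a.eval x else b.eval x

lemma half_notMem {L : Finset ℕ} {v : ℕ} (hv : v ∈ L) :
    2 * ∑ R ∈ L.powerset, (if v ∉ R then (1 : ℝ) else 0) = 2 ^ L.card := by
  have h : L = insert v (L.erase v) := (insert_erase hv).symm
  have hn : v ∉ L.erase v := notMem_erase v L
  rw [h, sum_powerset_insert hn, card_insert_of_notMem hn]
  have h1 : ∑ R ∈ (L.erase v).powerset, (if v ∉ R then (1 : ℝ) else 0) =
      2 ^ (L.erase v).card := by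
    rw [sum_congr rfl (g := fun _ => (1 : ℝ))]
    · rw [sum_const, card_powerset]; simp
    · intro R hR
      rw [if_pos]
      exact fun h => hn (mem_powerset.1 hR h)
  have h2 : ∑ R ∈ (L.erase v).powerset, (if v ∉ insert v R then (1 : ℝ) else 0) = 0 := by
    refine sum_eq_zero fun R _ => ?_
    rw [if_neg]
    exact fun h => h (mem_insert_self _ _)
  rw [h1, h2, pow_succ]
  ring

lemma half_mem {L : Finset ℕ} {v : ℕ} (hv : v ∈ L) :
    2 * ∑ R ∈ L.powerset, (if v ∈ R then (1 : ℝ) else 0) = 2 ^ L.card := by
  have h1 := half_notMem hv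
  have h2 : ∑ R ∈ L.powerset, (if v ∈ R then (1 : ℝ) else 0) +
      ∑ R ∈ L.powerset, (if v ∉ R then (1 : ℝ) else 0) = 2 ^ L.card := by
    rw [← sum_add_distrib, sum_congr rfl (g := fun _ => (1 : ℝ))]
    · rw [sum_const, card_powerset]; simp
    · intro R _
      by_cases h : v ∈ R <;> simp [h]
  linarith

lemma quarter {L : Finset ℕ} {u v : ℕ} (hu : u ∈ L) (hv : v ∈ L) (huv : u ≠ v) :
    4 * ∑ R ∈ L.powerset, (if u ∈ R ∧ v ∉ R then (1 : ℝ) else 0) = 2 ^ L.card := by
  have h : L = insert u (L.erase u) := (insert_erase hu).symm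
  have hn : u ∉ L.erase u := notMem_erase u L
  have hv' : v ∈ L.erase u := mem_erase.2 ⟨huv.symm, hv⟩
  rw [h, sum_powerset_insert hn, card_insert_of_notMem hn]
  have h1 : ∑ R ∈ (L.erase u).powerset, (if u ∈ R ∧ v ∉ R then (1 : ℝ) else 0) = 0 := by
    refine sum_eq_zero fun R hR => ?_
    rw [if_neg]
    exact fun h => hn (mem_powerset.1 hR h.1)
  have h2 : ∑ R ∈ (L.erase u).powerset, (if u ∈ insert u R ∧ v ∉ insert u R then (1 : ℝ) else 0) =
      ∑ R ∈ (L.erase u).powerset, (if v ∉ R then (1 : ℝ) else 0) := by
    refine sum_congr rfl fun R _ => ?_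
    have : (u ∈ insert u R ∧ v ∉ insert u R) ↔ v ∉ R := by
      simp [mem_insert, huv.symm]
    simp only [this]
  have h3 := half_notMem hv'
  rw [h1, h2, pow_succ]
  linarith

variable [Fintype ι]

/-- the box of the tuples with coordinates in given sets -/
noncomputable def box (A : ι → Finset V) : Finset (ι → V) := Fintype.piFinset A

/-- restrict two coordinates -/
noncomputable def res (A : ι → Finset V) (p q : ι) (P Q : V → Prop) : ι → Finset V :=
  Function.update (Function.update A p ((A p).filter P)) q ((A q).filter Q)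

lemma mem_res {A : ι → Finset V} {p q : ι} (hpq : p ≠ q) {P Q : V → Prop} {x : ι → V} :
    x ∈ box (res A p q P Q) ↔ x ∈ box A ∧ P (x p) ∧ Q (x q) := by
  unfold box res
  rw [Fintype.mem_piFinset, Fintype.mem_piFinset]
  constructor
  · intro h
    have hq := h q
    rw [Function.update_self, mem_filter] at hq
    have hp := h p
    rw [Function.update_of_ne hpq, Function.update_self, mem_filter] at hp
    refine ⟨fun i => ?_, hp.2, hq.2⟩
    by_cases hiq : i = q
    · rw [hiq]; exact hq.1
    · by_cases hip : i = p
      · rw [hip]; exact hp.1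
      · have := h i
        rw [Function.update_of_ne hiq, Function.update_of_ne hip] at this
        exact this
  · rintro ⟨h, hp, hq⟩ i
    by_cases hiq : i = q
    · rw [hiq, Function.update_self, mem_filter]
      exact ⟨h q, hq⟩
    · rw [Function.update_of_ne hiq]
      by_cases hip : i = p
      · rw [hip, Function.update_self, mem_filter]
        exact ⟨h p, hp⟩
      · rw [Function.update_of_ne hip]
        exact h i

/-- the labels which occur -/
noncomputable def labels (A : ι → Finset V) (p q : ι) (f g : V → ℕ) : Finset ℕ :=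
  (A p).image f ∪ (A q).image g

/-- the conditions on the size function -/
structure Size (Φ : (ι → Finset V) → ℝ) : Prop where
  nonneg : ∀ A, 0 ≤ Φ A
  pos : ∀ (A : ι → Finset V) (p q : ι), p ≠ q → ∀ f g : V → ℕ,
    ∑ u ∈ labels A p q f g, Φ (res A p q (fun x => f x = u) fun y => g y = u) ≤ Φ A
  neg : ∀ (A : ι → Finset V) (p q : ι), p ≠ q → ∀ f g : V → ℕ,
    2 * ∑ R ∈ (labels A p q f g).powerset,
      Φ (res A p q (fun x => f x ∈ R) fun y => g y ∉ R) ≤ 2 ^ (labels A p q f g).card * Φ A

theorem main {Φ : (ι → Finset V) → ℝ} (hΦ : Size Φ) {S : Set (ι → V)}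
    (hleaf : ∀ A, (∀ x ∈ box A, x ∈ S) → ((box A).card : ℝ) ≤ Φ A) (t : Tree ι V) :
    ∀ A, (∀ x ∈ box A, t.eval x = true → x ∈ S) →
      (((box A).filter fun x => t.eval x = true).card : ℝ) ≤ 3 ^ t.depth * Φ A := by
  induction t with
  | leaf b =>
    intro A h
    cases b
    · have : ((box A).filter fun x => (Tree.leaf false : Tree ι V).eval x = true) = ∅ := by
        rw [filter_eq_empty_iff]
        intro x _
        simp [Tree.eval]
      rw [this, card_empty, Nat.cast_zero]
      exact mul_nonneg (by positivity) (hΦ.nonneg A)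
    · have h1 : ∀ x ∈ box A, x ∈ S := fun x hx => h x hx rfl
      have h2 : ((box A).filter fun x => (Tree.leaf true : Tree ι V).eval x = true) = box A := by
        rw [filter_eq_self]
        intro x _
        rfl
      rw [h2]
      simp only [Tree.depth, pow_zero, one_mul]
      exact hleaf A h1
  | node p q hpq f g a b iha ihb =>
    intro A h
    set L := labels A p q f g with hL
    set d := max a.depth b.depth with hd
    have hev : ∀ x, (Tree.node p q hpq f g a b).eval x =
        if f (x p) = g (x q) then a.eval x else b.eval x := fun x => rfl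
    have da : (3 : ℝ) ^ a.depth ≤ 3 ^ d := pow_le_pow_right₀ (by norm_num) (le_max_left _ _)
    have db : (3 : ℝ) ^ b.depth ≤ 3 ^ d := pow_le_pow_right₀ (by norm_num) (le_max_right _ _)
    have hfL : ∀ x ∈ box A, f (x p) ∈ L := fun x hx =>
      mem_union_left _ (mem_image_of_mem _ (Fintype.mem_piFinset.1 hx p))
    have hgL : ∀ x ∈ box A, g (x q) ∈ L := fun x hx =>
      mem_union_right _ (mem_image_of_mem _ (Fintype.mem_piFinset.1 hx q))
    -- the first part
    have h1 : (((box A).filter fun x => f (x p) = g (x q) ∧ a.eval x = true).card : ℝ) ≤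
        3 ^ d * Φ A := by
      have e1 : (((box A).filter fun x => f (x p) = g (x q) ∧ a.eval x = true).card : ℝ) =
          ∑ u ∈ L, (((box (res A p q (fun x => f x = u) fun y => g y = u)).filter
            fun x => a.eval x = true).card : ℝ) := by
        have e2 : ∀ u ∈ L, ((box (res A p q (fun x => f x = u) fun y => g y = u)).filter
            fun x => a.eval x = true) =
            ((box A).filter fun x => f (x p) = g (x q) ∧ a.eval x = true).filter
              fun x => f (x p) = u := by
          intro u _
          ext x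
          rw [mem_filter, mem_res hpq, mem_filter, mem_filter]
          constructor
          · rintro ⟨⟨h1, h2, h3⟩, h4⟩
            exact ⟨⟨h1, h2.trans h3.symm, h4⟩, h2⟩
          · rintro ⟨⟨h1, h2, h3⟩, h4⟩
            exact ⟨⟨h1, h4, h2.symm.trans h4⟩, h3⟩
        rw [sum_congr rfl fun u hu => by rw [e2 u hu]]
        have := card_eq_sum_card_fiberwise (s := (box A).filter fun x => f (x p) = g (x q) ∧
          a.eval x = true) (t := L) (f := fun x => f (x p))
          (fun x hx => hfL x (mem_filter.1 hx).1)
        rw [this]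
        push_cast
        rfl
      rw [e1]
      have e3 : ∀ u ∈ L, (((box (res A p q (fun x => f x = u) fun y => g y = u)).filter
            fun x => a.eval x = true).card : ℝ) ≤
            3 ^ d * Φ (res A p q (fun x => f x = u) fun y => g y = u) := by
        intro u _
        refine (iha _ fun x hx he => ?_).trans (mul_le_mul_of_nonneg_right da (hΦ.nonneg _))
        rw [mem_res hpq] at hx
        apply h x hx.1
        rw [hev, if_pos (hx.2.1.trans hx.2.2.symm)]
        exact he
      refine (sum_le_sum e3).trans ?_
      rw [← mul_sum]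
      exact mul_le_mul_of_nonneg_left (hΦ.pos A p q hpq f g) (by positivity)
    -- the second part
    have h2 : (((box A).filter fun x => f (x p) ≠ g (x q) ∧ b.eval x = true).card : ℝ) ≤
        2 * (3 ^ d * Φ A) := by
      have e1 : 2 ^ L.card * (((box A).filter fun x => f (x p) ≠ g (x q) ∧
          b.eval x = true).card : ℝ) = 4 * ∑ R ∈ L.powerset,
          (((box (res A p q (fun x => f x ∈ R) fun y => g y ∉ R)).filter
            fun x => b.eval x = true).card : ℝ) := by
        have e2 : ∀ R ∈ L.powerset,
            (((box (res A p q (fun x => f x ∈ R) fun y => g y ∉ R)).filter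
            fun x => b.eval x = true).card : ℝ) =
            ∑ x ∈ (box A).filter (fun x => f (x p) ≠ g (x q) ∧ b.eval x = true),
              if f (x p) ∈ R ∧ g (x q) ∉ R then (1 : ℝ) else 0 := by
          intro R _
          rw [← sum_filter, sum_const, nsmul_eq_mul, mul_one]
          congr 2
          ext x
          rw [mem_filter, mem_res hpq, mem_filter, mem_filter]
          constructor
          · rintro ⟨⟨h1, h2, h3⟩, h4⟩
            exact ⟨⟨h1, fun he => h3 (he ▸ h2), h4⟩, h2, h3⟩
          · rintro ⟨⟨h1, h2, h3⟩, h4, h5⟩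
            exact ⟨⟨h1, h4, h5⟩, h3⟩
        rw [sum_congr rfl e2, sum_comm, mul_sum]
        have e3 : ∀ x ∈ (box A).filter (fun x => f (x p) ≠ g (x q) ∧ b.eval x = true),
            4 * ∑ R ∈ L.powerset, (if f (x p) ∈ R ∧ g (x q) ∉ R then (1 : ℝ) else 0) =
              2 ^ L.card := by
          intro x hx
          rw [mem_filter] at hx
          exact quarter (hfL x hx.1) (hgL x hx.1) hx.2.1
        rw [sum_congr rfl e3, sum_const, nsmul_eq_mul]
        ring
      have e4 : ∀ R ∈ L.powerset,
          (((box (res A p q (fun x => f x ∈ R) fun y => g y ∉ R)).filter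
            fun x => b.eval x = true).card : ℝ) ≤
            3 ^ d * Φ (res A p q (fun x => f x ∈ R) fun y => g y ∉ R) := by
        intro R _
        refine (ihb _ fun x hx he => ?_).trans (mul_le_mul_of_nonneg_right db (hΦ.nonneg _))
        rw [mem_res hpq] at hx
        apply h x hx.1
        rw [hev, if_neg]
        · exact he
        · intro he'
          exact hx.2.2 (he' ▸ hx.2.1)
      have e5 := sum_le_sum e4
      rw [← mul_sum] at e5
      have e6 := mul_le_mul_of_nonneg_left (hΦ.neg A p q hpq f g)
        (show (0 : ℝ) ≤ 2 * 3 ^ d by positivity)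
      have hp : (0 : ℝ) < 2 ^ L.card := by positivity
      have e7 : 2 ^ L.card * (((box A).filter fun x => f (x p) ≠ g (x q) ∧
          b.eval x = true).card : ℝ) ≤ 2 ^ L.card * (2 * (3 ^ d * Φ A)) := by
        rw [e1]
        nlinarith
      exact le_of_mul_le_mul_left e7 hp
    have h3 : ((box A).filter fun x => (Tree.node p q hpq f g a b).eval x = true) ⊆
        ((box A).filter fun x => f (x p) = g (x q) ∧ a.eval x = true) ∪
        ((box A).filter fun x => f (x p) ≠ g (x q) ∧ b.eval x = true) := by
      intro x hx
      rw [mem_filter, hev] at hx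
      rw [mem_union, mem_filter, mem_filter]
      by_cases he : f (x p) = g (x q)
      · rw [if_pos he] at hx
        exact Or.inl ⟨hx.1, he, hx.2⟩
      · rw [if_neg he] at hx
        exact Or.inr ⟨hx.1, he, hx.2⟩
    have h4 := (card_le_card h3).trans (card_union_le _ _)
    have h5 : (((box A).filter fun x => (Tree.node p q hpq f g a b).eval x = true).card : ℝ) ≤
        (((box A).filter fun x => f (x p) = g (x q) ∧ a.eval x = true).card : ℝ) +
        (((box A).filter fun x => f (x p) ≠ g (x q) ∧ b.eval x = true).card : ℝ) := by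
      exact_mod_cast h4
    have h6 : (Tree.node p q hpq f g a b).depth = d + 1 := rfl
    rw [h6, pow_succ]
    linarith

end Pool.Agent.X59.EQ
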