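import Pool.Agent.X59.EQ.A

/-! The two size functions. -/

set_option autoImplicit false
open Finset
open scoped Classical

namespace Pool.Agent.X59.EQ

variable {ι V : Type}

lemma mem_box [Fintype ι] {A : ι → Finset V} {x : ι → V} : x ∈ box A ↔ ∀ i, x i ∈ A i := by
  unfold box
  rw [Fintype.mem_piFinset]

lemma card_box [Fintype ι] (A : ι → Finset V) : (box A).card = ∏ i, (A i).card := by
  unfold box
  rw [Fintype.card_piFinset]

/-- the elements of a set with a property -/
noncomputable def flt (A : Finset V) (P : V → Prop) : Finset V := A.filter P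

lemma mem_flt {A : Finset V} {P : V → Prop} {x : V} : x ∈ flt A P ↔ x ∈ A ∧ P x := mem_filter

lemma res_p {A : ι → Finset V} {p q : ι} (hpq : p ≠ q) {P Q : V → Prop} :
    res A p q P Q p = flt (A p) P := by
  unfold res
  rw [Function.update_of_ne hpq, Function.update_self]
  rfl

lemma res_q {A : ι → Finset V} {p q : ι} {P Q : V → Prop} :
    res A p q P Q q = flt (A q) Q := by
  unfold res
  rw [Function.update_self]
  rfl

lemma sum_fibre (A : Finset V) (f : V → ℕ) (L : Finset ℕ) (hL : A.image f ⊆ L) :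
    ∑ u ∈ L, ((flt A fun x => f x = u).card : ℝ) = A.card := by
  have h1 : ∀ u ∈ L, ((flt A fun x => f x = u).card : ℝ) =
      ∑ x ∈ A, if f x = u then (1 : ℝ) else 0 := by
    intro u _
    have : (flt A fun x => f x = u) = A.filter fun x => f x = u := by
      ext x; rw [mem_flt, mem_filter]
    rw [this, card_filter]
    push_cast
    rfl
  rw [sum_congr rfl h1, sum_comm]
  have h2 : ∀ x ∈ A, ∑ u ∈ L, (if f x = u then (1 : ℝ) else 0) = 1 := by
    intro x hx
    rw [sum_ite_eq, if_pos (hL (mem_image_of_mem _ hx))]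
  rw [sum_congr rfl h2, sum_const, nsmul_eq_mul, mul_one]

lemma sum_in (A : Finset V) (f : V → ℕ) (L : Finset ℕ) (hL : A.image f ⊆ L) :
    2 * ∑ R ∈ L.powerset, ((flt A fun x => f x ∈ R).card : ℝ) = 2 ^ L.card * A.card := by
  have h1 : ∀ R ∈ L.powerset, ((flt A fun x => f x ∈ R).card : ℝ) =
      ∑ x ∈ A, if f x ∈ R then (1 : ℝ) else 0 := by
    intro R _
    have : (flt A fun x => f x ∈ R) = A.filter fun x => f x ∈ R := by
      ext x; rw [mem_flt, mem_filter]
    rw [this, card_filter]
    push_cast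
    rfl
  rw [sum_congr rfl h1, sum_comm, mul_sum]
  have h2 : ∀ x ∈ A, 2 * ∑ R ∈ L.powerset, (if f x ∈ R then (1 : ℝ) else 0) = 2 ^ L.card :=
    fun x hx => half_mem (hL (mem_image_of_mem _ hx))
  rw [sum_congr rfl h2, sum_const, nsmul_eq_mul]
  ring

lemma sum_out (A : Finset V) (f : V → ℕ) (L : Finset ℕ) (hL : A.image f ⊆ L) :
    2 * ∑ R ∈ L.powerset, ((flt A fun x => f x ∉ R).card : ℝ) = 2 ^ L.card * A.card := by
  have h1 : ∀ R ∈ L.powerset, ((flt A fun x => f x ∉ R).card : ℝ) =
      ∑ x ∈ A, if f x ∉ R then (1 : ℝ) else 0 := by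
    intro R _
    have : (flt A fun x => f x ∉ R) = A.filter fun x => f x ∉ R := by
      ext x; rw [mem_flt, mem_filter]
    rw [this, card_filter]
    push_cast
    rfl
  rw [sum_congr rfl h1, sum_comm, mul_sum]
  have h2 : ∀ x ∈ A, 2 * ∑ R ∈ L.powerset, (if f x ∉ R then (1 : ℝ) else 0) = 2 ^ L.card :=
    fun x hx => half_notMem (hL (mem_image_of_mem _ hx))
  rw [sum_congr rfl h2, sum_const, nsmul_eq_mul]
  ring

/-! ### the sum, for two coordinates -/

lemma size_sum {c : ℝ} (hc : 0 ≤ c) :
    Size (ι := Fin 2) (V := V) fun A => c * ∑ i, ((A i).card : ℝ) := by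
  have key : ∀ (A : Fin 2 → Finset V) (p q : Fin 2), p ≠ q → ∀ P Q : V → Prop,
      ∑ i, ((res A p q P Q i).card : ℝ) = (flt (A p) P).card + (flt (A q) Q).card := by
    intro A p q hpq P Q
    have e1 : ∑ i, ((res A p q P Q i).card : ℝ) = (res A p q P Q p).card +
        (res A p q P Q q).card := by
      have : p = 0 ∧ q = 1 ∨ p = 1 ∧ q = 0 := by
        revert p q; decide
      rw [Fin.sum_univ_two]
      rcases this with ⟨h1, h2⟩ | ⟨h1, h2⟩
      · rw [h1, h2]
      · rw [h1, h2, add_comm]
    rw [e1, res_p hpq, res_q]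
  have key0 : ∀ (A : Fin 2 → Finset V) (p q : Fin 2), p ≠ q →
      ∑ i, ((A i).card : ℝ) = (A p).card + (A q).card := by
    intro A p q hpq
    have : p = 0 ∧ q = 1 ∨ p = 1 ∧ q = 0 := by
      revert p q; decide
    rw [Fin.sum_univ_two]
    rcases this with ⟨h1, h2⟩ | ⟨h1, h2⟩
    · rw [h1, h2]
    · rw [h1, h2, add_comm]
  refine ⟨fun A => mul_nonneg hc (sum_nonneg fun i _ => Nat.cast_nonneg _), ?_, ?_⟩
  · intro A p q hpq f g
    rw [← mul_sum]
    refine mul_le_mul_of_nonneg_left (le_of_eq ?_) hc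
    simp only [key A p q hpq, key0 A p q hpq]
    rw [sum_add_distrib, sum_fibre (A p) f (labels A p q f g) subset_union_left,
      sum_fibre (A q) g (labels A p q f g) subset_union_right]
  · intro A p q hpq f g
    rw [← mul_sum]
    simp only [key A p q hpq, key0 A p q hpq]
    rw [sum_add_distrib]
    have h1 := sum_in (A p) f (labels A p q f g) subset_union_left
    have h2 := sum_out (A q) g (labels A p q f g) subset_union_right
    refine le_of_eq ?_
    linear_combination c * h1 + c * h2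

/-! ### the root of the product -/

lemma prod_res [Fintype ι] (A : ι → Finset V) {p q : ι} (hpq : p ≠ q) (P Q : V → Prop) :
    ∏ i, ((res A p q P Q i).card : ℝ) = (flt (A p) P).card * (flt (A q) Q).card *
      ∏ i ∈ (univ.erase p).erase q, ((A i).card : ℝ) := by
  rw [← mul_prod_erase univ _ (mem_univ p), ← mul_prod_erase (univ.erase p) _
    (mem_erase.2 ⟨hpq.symm, mem_univ q⟩)]
  rw [res_p hpq, res_q, mul_assoc]
  congr 2
  refine prod_congr rfl fun i hi => ?_
  rw [mem_erase, mem_erase] at hi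
  unfold res
  rw [Function.update_of_ne hi.1, Function.update_of_ne hi.2.1]

lemma prod_split [Fintype ι] (A : ι → Finset V) {p q : ι} (hpq : p ≠ q) :
    ∏ i, ((A i).card : ℝ) = (A p).card * (A q).card *
      ∏ i ∈ (univ.erase p).erase q, ((A i).card : ℝ) := by
  rw [← mul_prod_erase univ _ (mem_univ p), ← mul_prod_erase (univ.erase p) _
    (mem_erase.2 ⟨hpq.symm, mem_univ q⟩), mul_assoc]

lemma size_sqrt [Fintype ι] {c : ℝ} (hc : 0 ≤ c) :
    Size (ι := ι) (V := V) fun A => c * Real.sqrt (∏ i, ((A i).card : ℝ)) := by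
  refine ⟨fun A => mul_nonneg hc (Real.sqrt_nonneg _), ?_, ?_⟩
  · intro A p q hpq f g
    rw [← mul_sum]
    refine mul_le_mul_of_nonneg_left ?_ hc
    set M := ∏ i ∈ (univ.erase p).erase q, ((A i).card : ℝ) with hM
    have hM0 : 0 ≤ M := prod_nonneg fun i _ => Nat.cast_nonneg _
    have e1 : ∀ u, Real.sqrt (∏ i, ((res A p q (fun x => f x = u) (fun y => g y = u) i).card : ℝ)) =
        Real.sqrt ((flt (A p) fun x => f x = u).card) *
          Real.sqrt ((flt (A q) fun y => g y = u).card) * Real.sqrt M := by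
      intro u
      rw [prod_res A hpq, ← hM, Real.sqrt_mul (by positivity), Real.sqrt_mul (by positivity)]
    simp only [e1]
    rw [← sum_mul, prod_split A hpq, ← hM, Real.sqrt_mul (by positivity),
      Real.sqrt_mul (by positivity)]
    refine mul_le_mul_of_nonneg_right ?_ (Real.sqrt_nonneg _)
    have h1 := Finset.sum_mul_sq_le_sq_mul_sq (labels A p q f g)
      (fun u => Real.sqrt ((flt (A p) fun x => f x = u).card))
      (fun u => Real.sqrt ((flt (A q) fun y => g y = u).card))
    have h2 : ∀ u, Real.sqrt ((flt (A p) fun x => f x = u).card : ℝ) ^ 2 =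
        (flt (A p) fun x => f x = u).card := fun u => Real.sq_sqrt (Nat.cast_nonneg _)
    have h3 : ∀ u, Real.sqrt ((flt (A q) fun x => g x = u).card : ℝ) ^ 2 =
        (flt (A q) fun x => g x = u).card := fun u => Real.sq_sqrt (Nat.cast_nonneg _)
    simp only [h2, h3] at h1
    rw [sum_fibre (A p) f (labels A p q f g) subset_union_left,
      sum_fibre (A q) g (labels A p q f g) subset_union_right] at h1
    rw [← Real.sqrt_mul (Nat.cast_nonneg _)]
    exact Real.le_sqrt_of_sq_le h1
  · intro A p q hpq f g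
    set M := ∏ i ∈ (univ.erase p).erase q, ((A i).card : ℝ) with hM
    have hM0 : 0 ≤ M := prod_nonneg fun i _ => Nat.cast_nonneg _
    set L := labels A p q f g with hL
    have e1 : ∀ R : Finset ℕ,
        Real.sqrt (∏ i, ((res A p q (fun x => f x ∈ R) (fun y => g y ∉ R) i).card : ℝ)) =
        Real.sqrt ((flt (A p) fun x => f x ∈ R).card) *
          Real.sqrt ((flt (A q) fun y => g y ∉ R).card) * Real.sqrt M := by
      intro R
      rw [prod_res A hpq, ← hM, Real.sqrt_mul (by positivity), Real.sqrt_mul (by positivity)]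
    simp only [e1]
    rw [prod_split A hpq, ← hM, Real.sqrt_mul (by positivity), Real.sqrt_mul (by positivity),
      ← mul_sum, ← sum_mul]
    have h1 := Finset.sum_mul_sq_le_sq_mul_sq L.powerset
      (fun R => Real.sqrt ((flt (A p) fun x => f x ∈ R).card))
      (fun R => Real.sqrt ((flt (A q) fun y => g y ∉ R).card))
    have h2 : ∀ R : Finset ℕ, Real.sqrt ((flt (A p) fun x => f x ∈ R).card : ℝ) ^ 2 =
        (flt (A p) fun x => f x ∈ R).card := fun u => Real.sq_sqrt (Nat.cast_nonneg _)
    have h3 : ∀ R : Finset ℕ, Real.sqrt ((flt (A q) fun x => g x ∉ R).card : ℝ) ^ 2 =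
        (flt (A q) fun x => g x ∉ R).card := fun u => Real.sq_sqrt (Nat.cast_nonneg _)
    simp only [h2, h3] at h1
    have h4 := sum_in (A p) f L subset_union_left
    have h5 := sum_out (A q) g L subset_union_right
    set X := ∑ R ∈ L.powerset, (((flt (A p) fun x => f x ∈ R).card : ℕ) : ℝ) with hX
    set Y := ∑ R ∈ L.powerset, (((flt (A q) fun x => g x ∉ R).card : ℕ) : ℝ) with hY
    set Z := ∑ R ∈ L.powerset, Real.sqrt ((flt (A p) fun x => f x ∈ R).card) *
      Real.sqrt ((flt (A q) fun y => g y ∉ R).card) with hZ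
    have hZ2 : 2 * Z ≤ 2 ^ L.card * (Real.sqrt (A p).card * Real.sqrt (A q).card) := by
      rw [← Real.sqrt_mul (Nat.cast_nonneg _)]
      have : (2 * Z) ^ 2 ≤ (2 ^ L.card) ^ 2 * (((A p).card : ℝ) * (A q).card) := by
        calc (2 * Z) ^ 2 = 4 * Z ^ 2 := by ring
          _ ≤ 4 * (X * Y) := by linarith
          _ = (2 * X) * (2 * Y) := by ring
          _ = _ := by rw [h4, h5]; ring
      have h6 : 2 ^ L.card * Real.sqrt (((A p).card : ℝ) * (A q).card) =
          Real.sqrt ((2 ^ L.card) ^ 2 * (((A p).card : ℝ) * (A q).card)) := by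
        rw [Real.sqrt_mul (sq_nonneg ((2 : ℝ) ^ L.card)), Real.sqrt_sq (by positivity)]
      rw [h6]
      exact Real.le_sqrt_of_sq_le this
    have hcm : 0 ≤ c * Real.sqrt M := mul_nonneg hc (Real.sqrt_nonneg _)
    have := mul_le_mul_of_nonneg_right hZ2 hcm
    nlinarith

end Pool.Agent.X59.EQ
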