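import Pool.Agent.X59.EQ.B

/-! Sets decided by decision trees: an abstract counting theorem. -/

set_option autoImplicit false
open Finset
open scoped Classical

namespace Pool.Agent.X59.EQ

variable {X Cell : Type}

/-- decision trees with arbitrary tests -/
inductive DT (X : Type) : Type
  | leaf (b : Bool) : DT X
  | node (τ : X → Prop) (yes no : DT X) : DT X

/-- the largest number of tests -/
def DT.depth : DT X → ℕ
  | .leaf _ => 0
  | .node _ a b => max a.depth b.depth + 1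

/-- the accepted elements -/
def DT.acc : DT X → X → Prop
  | .leaf b, _ => b = true
  | .node τ a b, x => (τ x ∧ a.acc x) ∨ (¬ τ x ∧ b.acc x)

/-- all tests belong to a class -/
def DT.In (P : (X → Prop) → Prop) : DT X → Prop
  | .leaf _ => True
  | .node τ a b => P τ ∧ a.In P ∧ b.In P

/-- the indicator of a proposition -/
noncomputable def ind (p : Prop) : ℝ := if p then 1 else 0

lemma ind_of {p : Prop} (h : p) : ind p = 1 := if_pos h

lemma ind_not {p : Prop} (h : ¬ p) : ind p = 0 := if_neg h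

lemma ind_nonneg (p : Prop) : 0 ≤ ind p := by
  unfold ind
  split_ifs <;> norm_num

lemma ind_eq (p : Prop) [Decidable p] : ind p = if p then (1 : ℝ) else 0 := by
  by_cases h : p
  · rw [ind_of h, if_pos h]
  · rw [ind_not h, if_neg h]

lemma ind_congr {p q : Prop} (h : p ↔ q) : ind p = ind q := by rw [propext h]

/-- the elements of every cell with the property `τ` are covered by cells with total size at most
`c` times the size of the cell -/
def Cov (mem : Cell → Finset X) (Φ : Cell → ℝ) (c : ℝ) (τ : X → Prop) : Prop :=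
  ∀ B : Cell, ∃ (T : Type) (J : Finset T) (C : T → Cell) (w : ℝ), 0 ≤ w ∧
    (∀ j ∈ J, ∀ x ∈ mem (C j), x ∈ mem B ∧ τ x) ∧
    (∀ x ∈ mem B, τ x → 1 ≤ w * ∑ j ∈ J, ind (x ∈ mem (C j))) ∧
    w * ∑ j ∈ J, Φ (C j) ≤ c * Φ B

lemma cov_count {mem : Cell → Finset X} {Φ : Cell → ℝ} {c : ℝ} {τ : X → Prop}
    (h : Cov mem Φ c τ) {S : X → Prop} (a : X → Prop) {M : ℝ} (hM : 0 ≤ M)
    (ha : ∀ B : Cell, (∀ x ∈ mem B, a x → S x) → ((flt (mem B) a).card : ℝ) ≤ M * Φ B)
    (B : Cell) (hB : ∀ x ∈ mem B, τ x → a x → S x) :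
    ((flt (mem B) fun x => τ x ∧ a x).card : ℝ) ≤ M * (c * Φ B) := by
  obtain ⟨T, J, C, w, hw, h1, h2, h3⟩ := h B
  have e1 : ((flt (mem B) fun x => τ x ∧ a x).card : ℝ) ≤
      ∑ x ∈ flt (mem B) (fun x => τ x ∧ a x),
        w * ∑ j ∈ J, ind (x ∈ mem (C j)) := by
    rw [card_eq_sum_ones]
    push_cast
    refine sum_le_sum fun x hx => ?_
    rw [mem_flt] at hx
    exact h2 x hx.1 hx.2.1
  have e2 : ∑ x ∈ flt (mem B) (fun x => τ x ∧ a x),
        w * ∑ j ∈ J, ind (x ∈ mem (C j)) =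
      w * ∑ j ∈ J, ((flt (mem (C j)) a).card : ℝ) := by
    rw [← mul_sum, sum_comm]
    congr 1
    refine sum_congr rfl fun j hj => ?_
    have e0 : ∀ x, ind (x ∈ mem (C j)) = if x ∈ mem (C j) then (1 : ℝ) else 0 := fun x => ind_eq _
    simp only [e0]
    rw [← sum_filter, sum_const, nsmul_eq_mul, mul_one]
    congr 2
    ext x
    rw [mem_filter, mem_flt, mem_flt]
    constructor
    · rintro ⟨⟨_, _, h6⟩, h7⟩
      exact ⟨h7, h6⟩
    · rintro ⟨h5, h6⟩
      exact ⟨⟨(h1 j hj x h5).1, (h1 j hj x h5).2, h6⟩, h5⟩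
  rw [e2] at e1
  refine e1.trans ?_
  have e3 : ∑ j ∈ J, ((flt (mem (C j)) a).card : ℝ) ≤ ∑ j ∈ J, M * Φ (C j) := by
    refine sum_le_sum fun j hj => ha (C j) fun x hx hax => ?_
    exact hB x (h1 j hj x hx).1 (h1 j hj x hx).2 hax
  rw [← mul_sum] at e3
  calc w * ∑ j ∈ J, ((flt (mem (C j)) a).card : ℝ) ≤ w * (M * ∑ j ∈ J, Φ (C j)) :=
        mul_le_mul_of_nonneg_left e3 hw
    _ = M * (w * ∑ j ∈ J, Φ (C j)) := by ring
    _ ≤ M * (c * Φ B) := mul_le_mul_of_nonneg_left h3 hM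

/-- the counting theorem -/
theorem dt_count {mem : Cell → Finset X} {Φ : Cell → ℝ} (hΦ : ∀ B, 0 ≤ Φ B)
    {P : (X → Prop) → Prop} {c c' : ℝ} (hcc : 1 ≤ c + c')
    (hP : ∀ τ, P τ → Cov mem Φ c τ ∧ Cov mem Φ c' fun x => ¬ τ x) {S : X → Prop}
    (hleaf : ∀ B, (∀ x ∈ mem B, S x) → ((mem B).card : ℝ) ≤ Φ B) (t : DT X) :
    t.In P → ∀ B, (∀ x ∈ mem B, t.acc x → S x) →
      ((flt (mem B) t.acc).card : ℝ) ≤ (c + c') ^ t.depth * Φ B := by
  induction t with
  | leaf b =>
    intro _ B h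
    cases b
    · have : flt (mem B) (DT.leaf false : DT X).acc = ∅ := by
        rw [eq_empty_iff_forall_notMem]
        intro x hx
        rw [mem_flt] at hx
        exact Bool.false_ne_true hx.2
      rw [this, card_empty, Nat.cast_zero]
      exact mul_nonneg (by positivity) (hΦ B)
    · have h2 : flt (mem B) (DT.leaf true : DT X).acc = mem B := by
        ext x
        rw [mem_flt]
        exact ⟨fun h => h.1, fun h => ⟨h, rfl⟩⟩
      rw [h2]
      simp only [DT.depth, pow_zero, one_mul]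
      exact hleaf B fun x hx => h x hx rfl
  | node τ a b iha ihb =>
    rintro ⟨hτ, hain, hbin⟩ B h
    obtain ⟨k1, k2⟩ := hP τ hτ
    set d := max a.depth b.depth with hd
    have hK : (0 : ℝ) ≤ c + c' := by positivity
    have da : (c + c') ^ a.depth ≤ (c + c') ^ d := pow_le_pow_right₀ hcc (le_max_left _ _)
    have db : (c + c') ^ b.depth ≤ (c + c') ^ d := pow_le_pow_right₀ hcc (le_max_right _ _)
    have h1 := cov_count k1 (S := S) a.acc (M := (c + c') ^ d) (by positivity)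
      (fun B' hB' => (iha hain B' hB').trans (mul_le_mul_of_nonneg_right da (hΦ B'))) B
      (fun x hx h1 h2 => h x hx (Or.inl ⟨h1, h2⟩))
    have h2 := cov_count k2 (S := S) b.acc (M := (c + c') ^ d) (by positivity)
      (fun B' hB' => (ihb hbin B' hB').trans (mul_le_mul_of_nonneg_right db (hΦ B'))) B
      (fun x hx h1 h2 => h x hx (Or.inr ⟨h1, h2⟩))
    have h3 : flt (mem B) (DT.node τ a b).acc ⊆
        (flt (mem B) fun x => τ x ∧ a.acc x) ∪ (flt (mem B) fun x => ¬ τ x ∧ b.acc x) := by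
      intro x hx
      rw [mem_flt] at hx
      rw [mem_union, mem_flt, mem_flt]
      rcases hx.2 with h | h
      · exact Or.inl ⟨hx.1, h⟩
      · exact Or.inr ⟨hx.1, h⟩
    have h4 : ((flt (mem B) (DT.node τ a b).acc).card : ℝ) ≤
        ((flt (mem B) fun x => τ x ∧ a.acc x).card : ℝ) +
          ((flt (mem B) fun x => ¬ τ x ∧ b.acc x).card : ℝ) := by
      exact_mod_cast (card_le_card h3).trans (card_union_le _ _)
    have h6 : (DT.node τ a b).depth = d + 1 := rfl
    rw [h6, pow_succ]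
    nlinarith

/-! ### equality tests -/

variable {ι V : Type} [Fintype ι]

/-- the cell of the tuples of `W` with coordinates in given sets -/
noncomputable def cellW (W : (ι → V) → Prop) (A : ι → Finset V) : Finset (ι → V) := flt (box A) W

lemma mem_cellW {W : (ι → V) → Prop} {A : ι → Finset V} {x : ι → V} :
    x ∈ cellW W A ↔ (∀ i, x i ∈ A i) ∧ W x := by
  unfold cellW
  rw [mem_flt, mem_box]

lemma mem_cellW_res {W : (ι → V) → Prop} {A : ι → Finset V} {p q : ι} (hpq : p ≠ q)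
    {P Q : V → Prop} {x : ι → V} :
    x ∈ cellW W (res A p q P Q) ↔ x ∈ cellW W A ∧ P (x p) ∧ Q (x q) := by
  unfold cellW
  rw [mem_flt, mem_flt, mem_res hpq]
  tauto

lemma cov_eq {W : (ι → V) → Prop} {Φ : (ι → Finset V) → ℝ} (hΦ : Size Φ) {p q : ι} (hpq : p ≠ q)
    (f g : V → ℕ) : Cov (cellW W) Φ 1 fun x => f (x p) = g (x q) := by
  intro A
  refine ⟨ℕ, labels A p q f g, fun u => res A p q (fun x => f x = u) fun y => g y = u, 1,
    zero_le_one, ?_, ?_, ?_⟩
  · intro u _ x hx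
    rw [mem_cellW_res hpq] at hx
    exact ⟨hx.1, hx.2.1.trans hx.2.2.symm⟩
  · intro x hx he
    have hu : f (x p) ∈ labels A p q f g :=
      mem_union_left _ (mem_image_of_mem _ ((mem_cellW.1 hx).1 p))
    rw [one_mul]
    have h1 : ind (x ∈ cellW W (res A p q (fun y => f y = f (x p)) fun y => g y = f (x p))) = 1 := by
      refine ind_of ?_
      rw [mem_cellW_res hpq]
      exact ⟨hx, rfl, he.symm⟩
    have h2 := single_le_sum (f := fun u => ind (x ∈ cellW W
      (res A p q (fun y => f y = u) fun y => g y = u)))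
      (fun u _ => ind_nonneg _) hu
    exact h1.symm.le.trans h2
  · rw [one_mul, one_mul]
    exact hΦ.pos A p q hpq f g

lemma cov_ne {W : (ι → V) → Prop} {Φ : (ι → Finset V) → ℝ} (hΦ : Size Φ) {p q : ι} (hpq : p ≠ q)
    (f g : V → ℕ) : Cov (cellW W) Φ 2 fun x => ¬ f (x p) = g (x q) := by
  intro A
  set L := labels A p q f g with hL
  have hp : (0 : ℝ) < 2 ^ L.card := by positivity
  refine ⟨Finset ℕ, L.powerset, fun R => res A p q (fun x => f x ∈ R) fun y => g y ∉ R,
    4 / 2 ^ L.card, by positivity, ?_, ?_, ?_⟩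
  · intro R _ x hx
    rw [mem_cellW_res hpq] at hx
    exact ⟨hx.1, fun he => hx.2.2 (he ▸ hx.2.1)⟩
  · intro x hx he
    have hu : f (x p) ∈ L := mem_union_left _ (mem_image_of_mem _ ((mem_cellW.1 hx).1 p))
    have hv : g (x q) ∈ L := mem_union_right _ (mem_image_of_mem _ ((mem_cellW.1 hx).1 q))
    have h1 : ∑ R ∈ L.powerset, ind (x ∈ cellW W (res A p q (fun y => f y ∈ R) fun y => g y ∉ R)) =
        ∑ R ∈ L.powerset, if f (x p) ∈ R ∧ g (x q) ∉ R then (1 : ℝ) else 0 := by
      refine sum_congr rfl fun R _ => ?_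
      have h0 : x ∈ cellW W (res A p q (fun y => f y ∈ R) fun y => g y ∉ R) ↔
          f (x p) ∈ R ∧ g (x q) ∉ R := by
        rw [mem_cellW_res hpq]
        exact ⟨fun h => h.2, fun h => ⟨hx, h⟩⟩
      rw [ind_congr h0, ind_eq]
    show 1 ≤ 4 / 2 ^ L.card * ∑ R ∈ L.powerset,
      ind (x ∈ cellW W (res A p q (fun y => f y ∈ R) fun y => g y ∉ R))
    rw [h1]
    have h2 := quarter hu hv he
    have h3 : ∑ R ∈ L.powerset, (if f (x p) ∈ R ∧ g (x q) ∉ R then (1 : ℝ) else 0) =
        2 ^ L.card / 4 := by linarith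
    rw [h3]
    field_simp
    exact le_refl _
  · have h1 := hΦ.neg A p q hpq f g
    rw [← hL] at h1
    have h2 := mul_le_mul_of_nonneg_left h1 (show (0 : ℝ) ≤ 2 / 2 ^ L.card by positivity)
    calc _ = 2 / 2 ^ L.card * (2 * ∑ R ∈ L.powerset,
          Φ (res A p q (fun x => f x ∈ R) fun y => g y ∉ R)) := by ring
      _ ≤ _ := h2
      _ = 2 * Φ A := by field_simp

end Pool.Agent.X59.EQ
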