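import Pool.Agent.X59.EQ.C

/-! Equality tests between any two coordinates. -/

set_option autoImplicit false
open Finset
open scoped Classical

namespace Pool.Agent.X59.EQ

variable {ι V : Type} [Fintype ι]

/-- equality tests -/
def IsEq (τ : (ι → V) → Prop) : Prop := ∃ (p q : ι) (f g : V → ℕ), ∀ x, τ x ↔ f (x p) = g (x q)

lemma cov_congr {X Cell : Type} {mem : Cell → Finset X} {Φ : Cell → ℝ} {c : ℝ} {τ τ' : X → Prop}
    (h : ∀ x, τ x ↔ τ' x) (hτ : Cov mem Φ c τ) : Cov mem Φ c τ' := by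
  have : τ = τ' := funext fun x => propext (h x)
  rw [← this]
  exact hτ

lemma cov_isEq [Nontrivial ι] {W : (ι → V) → Prop} {Φ : (ι → Finset V) → ℝ} (hΦ : Size Φ)
    {τ : (ι → V) → Prop} (hτ : IsEq τ) :
    Cov (cellW W) Φ 1 τ ∧ Cov (cellW W) Φ 2 fun x => ¬ τ x := by
  obtain ⟨p, q, f, g, h⟩ := hτ
  by_cases hpq : p = q
  · obtain ⟨r, hr⟩ := exists_ne p
    have h' : ∀ x : ι → V, τ x ↔ (fun v => if f v = g v then 1 else 0) (x p) =
        (fun _ : V => 1) (x r) := by
      intro x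
      rw [h, ← hpq]
      by_cases h0 : f (x p) = g (x p)
      · simp [h0]
      · simp [h0]
    exact ⟨cov_congr (fun x => (h' x).symm)
        (cov_eq hΦ hr.symm (fun v => if f v = g v then 1 else 0) fun _ : V => 1),
      cov_congr (fun x => not_congr (h' x).symm)
        (cov_ne hΦ hr.symm (fun v => if f v = g v then 1 else 0) fun _ : V => 1)⟩
  · exact ⟨cov_congr (fun x => (h x).symm) (cov_eq hΦ hpq _ _),
      cov_congr (fun x => not_congr (h x).symm) (cov_ne hΦ hpq _ _)⟩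

/-- the counting theorem for equality tests -/
theorem eq_count [Nontrivial ι] [Fintype V] {W : (ι → V) → Prop} {c : ℝ} (hc : 0 ≤ c)
    {S : (ι → V) → Prop}
    (hleaf : ∀ B : ι → Finset V, (∀ x ∈ cellW W B, S x) →
      ((cellW W B).card : ℝ) ≤ c * Real.sqrt (∏ i, ((B i).card : ℝ)))
    (t : DT (ι → V)) (ht : t.In IsEq) (hS : ∀ x, W x → t.acc x → S x) :
    ((flt (cellW W fun _ => univ) t.acc).card : ℝ) ≤
      3 ^ t.depth * (c * Real.sqrt ((Fintype.card V : ℝ) ^ Fintype.card ι)) := by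
  have hsz : Size (ι := ι) (V := V) fun A => c * Real.sqrt (∏ i, ((A i).card : ℝ)) := size_sqrt hc
  have h := dt_count (mem := cellW W) (Φ := fun A => c * Real.sqrt (∏ i, ((A i).card : ℝ)))
    hsz.nonneg (P := IsEq) (c := 1) (c' := 2) (by norm_num) (fun τ hτ => cov_isEq hsz hτ) hleaf t ht
    (fun _ => univ) (fun x hx => hS x (mem_cellW.1 hx).2)
  have e2 : ∏ _i : ι, (((univ : Finset V).card : ℕ) : ℝ) = (Fintype.card V : ℝ) ^ Fintype.card ι := by
    rw [prod_const, card_univ, card_univ]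
  rw [e2] at h
  have e3 : (1 : ℝ) + 2 = 3 := by norm_num
  rw [e3] at h
  exact h

end Pool.Agent.X59.EQ
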