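import Pool.Agent.X59.EQ.D

/-! Comparisons between any two coordinates. -/

set_option autoImplicit false
open Finset
open scoped Classical

namespace Pool.Agent.X59.EQ

variable {ι V : Type}

lemma dyadic (m : ℕ) : ∀ a b : ℕ, b < 2 ^ m →
    (a < b ↔ ∃ l, l < m ∧ a / 2 ^ l + 1 = b / 2 ^ l ∧ (b / 2 ^ l) % 2 = 1) := by
  induction m with
  | zero =>
    intro a b hb
    constructor
    · intro h; simp at hb; omega
    · rintro ⟨l, hl, -⟩; omega
  | succ m ih =>
    intro a b hb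
    constructor
    · intro h
      have hb2 : b / 2 < 2 ^ m := by rw [pow_succ] at hb; omega
      by_cases h1 : a / 2 < b / 2
      · obtain ⟨l, hl, h2, h3⟩ := (ih (a / 2) (b / 2) hb2).1 h1
        refine ⟨l + 1, by omega, ?_, ?_⟩
        · rw [Nat.div_div_eq_div_mul, Nat.div_div_eq_div_mul, ← pow_succ'] at h2
          exact h2
        · rw [Nat.div_div_eq_div_mul, ← pow_succ'] at h3
          exact h3
      · refine ⟨0, by omega, ?_, ?_⟩
        · rw [pow_zero, Nat.div_one, Nat.div_one]; omega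
        · rw [pow_zero, Nat.div_one]; omega
    · rintro ⟨l, -, h2, -⟩
      by_contra h
      have := Nat.div_le_div_right (c := 2 ^ l) (not_lt.1 h)
      omega

lemma ranks [Fintype V] (f g : V → ℝ) : ∃ α β : V → ℕ, (∀ x, α x ≤ Fintype.card V) ∧
    (∀ y, β y ≤ Fintype.card V) ∧ ∀ x y, f x ≤ g y ↔ α x < β y := by
  refine ⟨fun x => (univ.filter fun t : V => f t < f x).card,
    fun y => (univ.filter fun t : V => f t ≤ g y).card, fun x => card_le_univ _,
    fun y => card_le_univ _, fun x y => ?_⟩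
  constructor
  · intro h
    apply Finset.card_lt_card
    rw [Finset.ssubset_iff_of_subset]
    · exact ⟨x, mem_filter.2 ⟨mem_univ _, h⟩, fun hx => lt_irrefl _ (mem_filter.1 hx).2⟩
    · intro t ht
      exact mem_filter.2 ⟨mem_univ _, (mem_filter.1 ht).2.le.trans h⟩
  · intro h
    by_contra hlt
    have hlt := not_le.1 hlt
    have : (univ.filter fun t : V => f t ≤ g y).card ≤ (univ.filter fun t : V => f t < f x).card := by
      apply Finset.card_le_card
      intro t ht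
      exact mem_filter.2 ⟨mem_univ _, (mem_filter.1 ht).2.trans_lt hlt⟩
    exact absurd h (not_lt.2 this)

/-- a comparison is the disjunction of `m` equality tests, if there are less than `2 ^ m` elements -/
lemma stair [Fintype V] {m : ℕ} (hm : Fintype.card V < 2 ^ m) (f g : V → ℝ) :
    ∃ u v : ℕ → V → ℕ, ∀ x y, f x ≤ g y ↔ ∃ l, l < m ∧ u l x = v l y := by
  obtain ⟨α, β, _, hβ, hαβ⟩ := ranks f g
  refine ⟨fun l x => α x / 2 ^ l + 1,
    fun l y => if (β y / 2 ^ l) % 2 = 1 then β y / 2 ^ l else 0, fun x y => ?_⟩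
  rw [hαβ, dyadic m (α x) (β y) ((hβ y).trans_lt hm)]
  constructor
  · rintro ⟨l, hl, h1, h2⟩
    refine ⟨l, hl, ?_⟩
    show α x / 2 ^ l + 1 = if (β y / 2 ^ l) % 2 = 1 then β y / 2 ^ l else 0
    rw [if_pos h2]; exact h1
  · rintro ⟨l, hl, h1⟩
    have h1 : α x / 2 ^ l + 1 = if (β y / 2 ^ l) % 2 = 1 then β y / 2 ^ l else 0 := h1
    split_ifs at h1 with h2
    exact ⟨l, hl, h1, h2⟩

lemma stair_not [Fintype V] {m : ℕ} (hm : Fintype.card V < 2 ^ m) (f g : V → ℝ) :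
    ∃ u v : ℕ → V → ℕ, ∀ x y, ¬ f x ≤ g y ↔ ∃ l, l < m ∧ u l x = v l y := by
  obtain ⟨α, β, _, _, hαβ⟩ := ranks f g
  obtain ⟨u, v, huv⟩ := stair hm (fun x => -(α x : ℝ)) (fun y => -(β y : ℝ))
  refine ⟨u, v, fun x y => ?_⟩
  rw [← huv, hαβ, not_lt, neg_le_neg_iff, Nat.cast_le]

variable [Fintype ι]

lemma cov_many {W : (ι → V) → Prop} {Φ : (ι → Finset V) → ℝ} (hΦ : Size Φ) {p q : ι} (hpq : p ≠ q)
    (m : ℕ) (u v : ℕ → V → ℕ) {τ : (ι → V) → Prop}
    (hτ : ∀ x, τ x ↔ ∃ l, l < m ∧ u l (x p) = v l (x q)) : Cov (cellW W) Φ m τ := by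
  intro A
  refine ⟨(_ : ℕ) × ℕ, (range m).sigma fun l => labels A p q (u l) (v l),
    fun j => res A p q (fun x => u j.1 x = j.2) fun y => v j.1 y = j.2, 1, zero_le_one, ?_, ?_, ?_⟩
  · rintro ⟨l, w⟩ hj x hx
    rw [mem_sigma, mem_range] at hj
    rw [mem_cellW_res hpq] at hx
    exact ⟨hx.1, (hτ x).2 ⟨l, hj.1, hx.2.1.trans hx.2.2.symm⟩⟩
  · intro x hx he
    obtain ⟨l, hl, hlx⟩ := (hτ x).1 he
    have hu : (⟨l, u l (x p)⟩ : (_ : ℕ) × ℕ) ∈ (range m).sigma fun l => labels A p q (u l) (v l) := by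
      rw [mem_sigma, mem_range]
      exact ⟨hl, mem_union_left _ (mem_image_of_mem _ ((mem_cellW.1 hx).1 p))⟩
    rw [one_mul]
    have h1 : ind (x ∈ cellW W (res A p q (fun y => u l y = u l (x p))
        fun y => v l y = u l (x p))) = 1 := by
      refine ind_of ?_
      rw [mem_cellW_res hpq]
      exact ⟨hx, rfl, hlx.symm⟩
    have h2 := single_le_sum (f := fun j : (_ : ℕ) × ℕ => ind (x ∈ cellW W
      (res A p q (fun y => u j.1 y = j.2) fun y => v j.1 y = j.2)))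
      (fun j _ => ind_nonneg _) hu
    exact h1.symm.le.trans h2
  · rw [one_mul, sum_sigma]
    refine (sum_le_sum fun l _ => hΦ.pos A p q hpq (u l) (v l)).trans ?_
    rw [sum_const, card_range, nsmul_eq_mul]

/-- comparisons -/
def IsCmp (τ : (ι → V) → Prop) : Prop := ∃ (p q : ι) (f g : V → ℝ), ∀ x, τ x ↔ f (x p) ≤ g (x q)

lemma cov_mono {X Cell : Type} {mem : Cell → Finset X} {Φ : Cell → ℝ} {c c' : ℝ} {τ : X → Prop}
    (hΦ : ∀ B, 0 ≤ Φ B) (hcc : c ≤ c') (h : Cov mem Φ c τ) : Cov mem Φ c' τ := by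
  intro B
  obtain ⟨T, J, C, w, hw, h1, h2, h3⟩ := h B
  exact ⟨T, J, C, w, hw, h1, h2, h3.trans (mul_le_mul_of_nonneg_right hcc (hΦ B))⟩

lemma cov_test [Nontrivial ι] [Fintype V] {m : ℕ} (hm2 : 2 ≤ m) (hm : Fintype.card V < 2 ^ m)
    {W : (ι → V) → Prop} {Φ : (ι → Finset V) → ℝ} (hΦ : Size Φ)
    {τ : (ι → V) → Prop} (hτ : IsEq τ ∨ IsCmp τ) :
    Cov (cellW W) Φ m τ ∧ Cov (cellW W) Φ m fun x => ¬ τ x := by
  have h2m : (2 : ℝ) ≤ m := by exact_mod_cast hm2
  have hEq : ∀ {σ : (ι → V) → Prop}, IsEq σ →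
      Cov (cellW W) Φ m σ ∧ Cov (cellW W) Φ m fun x => ¬ σ x := by
    intro σ hσ
    obtain ⟨h1, h2⟩ := cov_isEq (W := W) hΦ hσ
    exact ⟨cov_mono hΦ.nonneg (by linarith) h1, cov_mono hΦ.nonneg h2m h2⟩
  rcases hτ with hτ | ⟨p, q, f, g, h⟩
  · exact hEq hτ
  · by_cases hpq : p = q
    · obtain ⟨r, hr⟩ := exists_ne p
      refine hEq ⟨p, r, fun v => if f v ≤ g v then 1 else 0, fun _ => 1, fun x => ?_⟩
      rw [h, ← hpq]
      by_cases h0 : f (x p) ≤ g (x p)
      · simp [h0]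
      · simp [h0]
    · obtain ⟨u, v, huv⟩ := stair hm f g
      obtain ⟨u', v', huv'⟩ := stair_not hm f g
      exact ⟨cov_many hΦ hpq m u v fun x => (h x).trans (huv _ _),
        cov_many hΦ hpq m u' v' fun x => (not_congr (h x)).trans (huv' _ _)⟩

/-- the counting theorem for equality tests, for any size function -/
theorem cnt_eq [Nontrivial ι] [Fintype V] {W : (ι → V) → Prop} {Φ : (ι → Finset V) → ℝ}
    (hsz : Size Φ) {S : (ι → V) → Prop}
    (hleaf : ∀ B : ι → Finset V, (∀ x ∈ cellW W B, S x) → ((cellW W B).card : ℝ) ≤ Φ B)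
    (t : DT (ι → V)) (ht : t.In IsEq) (hS : ∀ x, W x → t.acc x → S x) :
    ((flt (cellW W fun _ => univ) t.acc).card : ℝ) ≤ 3 ^ t.depth * Φ fun _ => univ := by
  have h := dt_count (mem := cellW W) (Φ := Φ)
    hsz.nonneg (P := IsEq) (c := 1) (c' := 2) (by norm_num) (fun τ hτ => cov_isEq hsz hτ) hleaf t ht
    (fun _ => univ) (fun x hx => hS x (mem_cellW.1 hx).2)
  have e3 : (1 : ℝ) + 2 = 3 := by norm_num
  rw [e3] at h
  exact h

/-- the counting theorem for equality tests and comparisons, for any size function -/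
theorem cnt_cmp [Nontrivial ι] [Fintype V] {m : ℕ} (hm2 : 2 ≤ m) (hm : Fintype.card V < 2 ^ m)
    {W : (ι → V) → Prop} {Φ : (ι → Finset V) → ℝ}
    (hsz : Size Φ) {S : (ι → V) → Prop}
    (hleaf : ∀ B : ι → Finset V, (∀ x ∈ cellW W B, S x) → ((cellW W B).card : ℝ) ≤ Φ B)
    (t : DT (ι → V)) (ht : t.In fun τ => IsEq τ ∨ IsCmp τ) (hS : ∀ x, W x → t.acc x → S x) :
    ((flt (cellW W fun _ => univ) t.acc).card : ℝ) ≤ (2 * m) ^ t.depth * Φ fun _ => univ := by
  have h2m : (2 : ℝ) ≤ m := by exact_mod_cast hm2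
  have h := dt_count (mem := cellW W) (Φ := Φ)
    hsz.nonneg (P := fun τ => IsEq τ ∨ IsCmp τ) (c := m) (c' := m) (by linarith)
    (fun τ hτ => cov_test hm2 hm hsz hτ) hleaf t ht
    (fun _ => univ) (fun x hx => hS x (mem_cellW.1 hx).2)
  have e3 : (m : ℝ) + m = 2 * m := by ring
  rw [e3] at h
  exact h

end Pool.Agent.X59.EQ
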