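import Pool.Agent.X59.EQ.E

/-! Linear size functions for pairs. -/

set_option autoImplicit false
open Finset
open scoped Classical

namespace Pool.Agent.X59.EQ

variable {V : Type}

lemma size_lin {a b : ℝ} (ha : 0 ≤ a) (hb : 0 ≤ b) :
    Size (ι := Fin 2) (V := V) fun A => a * (A 0).card + b * (A 1).card := by
  have hpq' : ∀ p q : Fin 2, p ≠ q → p = 0 ∧ q = 1 ∨ p = 1 ∧ q = 0 := by decide
  have h01 : (0 : Fin 2) ≠ 1 := by decide
  refine ⟨fun A => by positivity, ?_, ?_⟩
  · intro A p q hpq f g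
    rcases hpq' p q hpq with ⟨rfl, rfl⟩ | ⟨rfl, rfl⟩
    · simp only [res_p h01, res_q]
      rw [sum_add_distrib, ← mul_sum, ← mul_sum, sum_fibre (A 0) f (labels A 0 1 f g)
        subset_union_left, sum_fibre (A 1) g (labels A 0 1 f g) subset_union_right]
    · simp only [res_p h01.symm, res_q]
      rw [sum_add_distrib, ← mul_sum, ← mul_sum, sum_fibre (A 1) f (labels A 1 0 f g)
        subset_union_left, sum_fibre (A 0) g (labels A 1 0 f g) subset_union_right]
  · intro A p q hpq f g
    rcases hpq' p q hpq with ⟨rfl, rfl⟩ | ⟨rfl, rfl⟩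
    · simp only [res_p h01, res_q]
      rw [sum_add_distrib, ← mul_sum, ← mul_sum]
      have h1 := sum_in (A 0) f (labels A 0 1 f g) subset_union_left
      have h2 := sum_out (A 1) g (labels A 0 1 f g) subset_union_right
      refine le_of_eq ?_
      linear_combination a * h1 + b * h2
    · simp only [res_p h01.symm, res_q]
      rw [sum_add_distrib, ← mul_sum, ← mul_sum]
      have h1 := sum_in (A 1) f (labels A 1 0 f g) subset_union_left
      have h2 := sum_out (A 0) g (labels A 1 0 f g) subset_union_right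
      refine le_of_eq ?_
      linear_combination b * h1 + a * h2

/-- the pairs decided by a tree, for two coordinates -/
lemma card_two [Fintype V] (t : DT (Fin 2 → V)) (B : Finset (V × V))
    (hB : ∀ x : Fin 2 → V, t.acc x ↔ (x 0, x 1) ∈ B) :
    (flt (cellW (fun _ : Fin 2 → V => True) fun _ => univ) t.acc).card = B.card := by
  refine card_bij (fun x _ => (x 0, x 1)) ?_ ?_ ?_
  · intro x hx
    rw [mem_flt] at hx
    exact (hB x).1 hx.2
  · intro x _ y _ h
    rw [Prod.mk.injEq] at h
    funext i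
    fin_cases i
    · exact h.1
    · exact h.2
  · intro y hy
    refine ⟨![y.1, y.2], ?_, rfl⟩
    rw [mem_flt, mem_cellW]
    exact ⟨⟨fun i => mem_univ _, trivial⟩, (hB _).2 hy⟩

lemma card_cell2 (C : Fin 2 → Finset V) :
    (cellW (fun _ : Fin 2 → V => True) C).card = (C 0).card * (C 1).card := by
  rw [← card_product]
  refine card_bij (fun x _ => (x 0, x 1)) ?_ ?_ ?_
  · intro x hx
    rw [mem_cellW] at hx
    exact mem_product.2 ⟨hx.1 0, hx.1 1⟩
  · intro x _ y _ h
    rw [Prod.mk.injEq] at h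
    funext i
    fin_cases i
    · exact h.1
    · exact h.2
  · intro y hy
    rw [mem_product] at hy
    refine ⟨![y.1, y.2], ?_, rfl⟩
    rw [mem_cellW]
    refine ⟨fun i => ?_, trivial⟩
    fin_cases i
    · exact hy.1
    · exact hy.2

lemma mem_cell2 {C : Fin 2 → Finset V} {a b : V} (ha : a ∈ C 0) (hb : b ∈ C 1) :
    (![a, b] : Fin 2 → V) ∈ cellW (fun _ : Fin 2 → V => True) C := by
  rw [mem_cellW]
  refine ⟨fun i => ?_, trivial⟩
  fin_cases i
  · exact ha
  · exact hb

/-- an exponential bound for a polynomial inequality -/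
lemma poly_exp (C : ℝ) (d : ℕ) : ∃ M : ℕ, ∀ m : ℕ, (2 : ℝ) ^ m ≤ C * (m : ℝ) ^ d → m ≤ M := by
  have h := tendsto_pow_const_div_const_pow_of_one_lt d (show (1 : ℝ) < 2 by norm_num)
  have h1 : ∀ᶠ n : ℕ in Filter.atTop, ((n : ℝ) ^ d / 2 ^ n) < 1 / (|C| + 1) := by
    have := h.eventually (gt_mem_nhds (show (0 : ℝ) < 1 / (|C| + 1) by positivity))
    exact this
  obtain ⟨M, hM⟩ := Filter.eventually_atTop.1 h1
  refine ⟨M, fun m hm => ?_⟩
  by_contra hcon
  have h2 := hM m (by omega)
  rw [div_lt_div_iff₀ (by positivity) (by positivity), one_mul] at h2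
  have h3 : C * (m : ℝ) ^ d ≤ |C| * (m : ℝ) ^ d :=
    mul_le_mul_of_nonneg_right (le_abs_self C) (by positivity)
  have h4 : (0 : ℝ) ≤ (m : ℝ) ^ d := by positivity
  nlinarith

end Pool.Agent.X59.EQ
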