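import Pool.Agent.X59.EQ.E

/-! Cells given by sides and by labels of pairs of coordinates. -/

set_option autoImplicit false
open Finset
open scoped Classical

namespace Pool.Agent.X59.EQ

variable {r : ℕ} {V : Type}

/-- sides and labels -/
structure LCell (r : ℕ) (V : Type) : Type where
  A : Fin r → Finset V
  F : Fin r → Fin r → V → ℕ
  G : Fin r → Fin r → V → ℕ

/-- the condition on a tuple -/
def LCell.ok (C : LCell r V) (x : Fin r → V) : Prop :=
  ∀ p q : Fin r, p < q → C.F p q (x p) = C.G p q (x q)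

/-- the tuples of a cell -/
noncomputable def LCell.mem (C : LCell r V) : Finset (Fin r → V) := flt (box C.A) C.ok

lemma LCell.mem_mem {C : LCell r V} {x : Fin r → V} :
    x ∈ C.mem ↔ (∀ i, x i ∈ C.A i) ∧ C.ok x := by
  unfold LCell.mem
  rw [mem_flt, mem_box]

/-- add a label -/
noncomputable def LCell.add (C : LCell r V) (p q : Fin r) (f g : V → ℕ) : LCell r V where
  A := C.A
  F := fun p' q' v => if p' = p ∧ q' = q then Nat.pair (C.F p q v) (f v) else C.F p' q' v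
  G := fun p' q' v => if p' = p ∧ q' = q then Nat.pair (C.G p q v) (g v) else C.G p' q' v

lemma LCell.mem_add {C : LCell r V} {p q : Fin r} (hpq : p < q) {f g : V → ℕ} {x : Fin r → V} :
    x ∈ (C.add p q f g).mem ↔ x ∈ C.mem ∧ f (x p) = g (x q) := by
  rw [LCell.mem_mem, LCell.mem_mem]
  constructor
  · rintro ⟨h1, h2⟩
    have h3 := h2 p q hpq
    have h4 : Nat.pair (C.F p q (x p)) (f (x p)) = Nat.pair (C.G p q (x q)) (g (x q)) := by
      simpa [LCell.add] using h3
    rw [Nat.pair_eq_pair] at h4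
    refine ⟨⟨h1, fun p' q' h' => ?_⟩, h4.2⟩
    by_cases h : p' = p ∧ q' = q
    · rw [h.1, h.2]; exact h4.1
    · have h5 := h2 p' q' h'
      simpa [LCell.add, h] using h5
  · rintro ⟨⟨h1, h2⟩, h3⟩
    refine ⟨h1, fun p' q' h' => ?_⟩
    by_cases h : p' = p ∧ q' = q
    · rw [h.1, h.2]
      have : Nat.pair (C.F p q (x p)) (f (x p)) = Nat.pair (C.G p q (x q)) (g (x q)) := by
        rw [h2 p q hpq, h3]
      simpa [LCell.add] using this
    · have h5 := h2 p' q' h'
      simpa [LCell.add, h] using h5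

/-- restrict two sides -/
noncomputable def LCell.res (C : LCell r V) (p q : Fin r) (P Q : V → Prop) : LCell r V where
  A := Pool.Agent.X59.EQ.res C.A p q P Q
  F := C.F
  G := C.G

lemma LCell.mem_res {C : LCell r V} {p q : Fin r} (hpq : p ≠ q) {P Q : V → Prop} {x : Fin r → V} :
    x ∈ (C.res p q P Q).mem ↔ x ∈ C.mem ∧ P (x p) ∧ Q (x q) := by
  unfold LCell.mem LCell.res
  rw [mem_flt, mem_flt, Pool.Agent.X59.EQ.mem_res hpq]
  constructor
  · rintro ⟨⟨h1, h2, h3⟩, h4⟩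
    exact ⟨⟨h1, h4⟩, h2, h3⟩
  · rintro ⟨⟨h1, h4⟩, h2, h3⟩
    exact ⟨⟨h1, h2, h3⟩, h4⟩

/-- equality tests -/
lemma lcov_eq {K : ℝ} {p q : Fin r} (hpq : p < q) (f g : V → ℕ) :
    Cov (LCell.mem (r := r) (V := V)) (fun _ => K) 1 fun x => f (x p) = g (x q) := by
  intro C
  refine ⟨Unit, univ, fun _ => C.add p q f g, 1, zero_le_one, ?_, ?_, ?_⟩
  · intro _ _ x hx
    rw [LCell.mem_add hpq] at hx
    exact hx
  · intro x hx he
    rw [one_mul, univ_unique, sum_singleton, ind_of]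
    rw [LCell.mem_add hpq]
    exact ⟨hx, he⟩
  · rw [one_mul, one_mul, univ_unique, sum_singleton]

lemma lcov_ne {K : ℝ} (hK : 0 ≤ K) {p q : Fin r} (hpq : p < q) (f g : V → ℕ) :
    Cov (LCell.mem (r := r) (V := V)) (fun _ => K) 4 fun x => ¬ f (x p) = g (x q) := by
  intro C
  set L := labels C.A p q f g with hL
  have hp : (0 : ℝ) < 2 ^ L.card := by positivity
  refine ⟨Finset ℕ, L.powerset, fun R => C.res p q (fun x => f x ∈ R) fun y => g y ∉ R,
    4 / 2 ^ L.card, by positivity, ?_, ?_, ?_⟩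
  · intro R _ x hx
    rw [LCell.mem_res hpq.ne] at hx
    exact ⟨hx.1, fun he => hx.2.2 (he ▸ hx.2.1)⟩
  · intro x hx he
    have hu : f (x p) ∈ L := mem_union_left _ (mem_image_of_mem _ ((LCell.mem_mem.1 hx).1 p))
    have hv : g (x q) ∈ L := mem_union_right _ (mem_image_of_mem _ ((LCell.mem_mem.1 hx).1 q))
    have h1 : ∑ R ∈ L.powerset, ind (x ∈ (C.res p q (fun x => f x ∈ R) fun y => g y ∉ R).mem) =
        ∑ R ∈ L.powerset, if f (x p) ∈ R ∧ g (x q) ∉ R then (1 : ℝ) else 0 := by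
      refine sum_congr rfl fun R _ => ?_
      have h0 : x ∈ (C.res p q (fun x => f x ∈ R) fun y => g y ∉ R).mem ↔
          f (x p) ∈ R ∧ g (x q) ∉ R := by
        rw [LCell.mem_res hpq.ne]
        exact ⟨fun h => h.2, fun h => ⟨hx, h⟩⟩
      rw [ind_congr h0, ind_eq]
    show 1 ≤ 4 / 2 ^ L.card * ∑ R ∈ L.powerset,
      ind (x ∈ (C.res p q (fun x => f x ∈ R) fun y => g y ∉ R).mem)
    rw [h1]
    have h2 := quarter hu hv he
    have h3 : ∑ R ∈ L.powerset, (if f (x p) ∈ R ∧ g (x q) ∉ R then (1 : ℝ) else 0) =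
        2 ^ L.card / 4 := by linarith
    rw [h3]
    field_simp
    exact le_refl _
  · rw [sum_const, card_powerset, nsmul_eq_mul]
    push_cast
    refine le_of_eq ?_
    field_simp

lemma lcov_many {K : ℝ} {p q : Fin r} (hpq : p < q) (m : ℕ)
    (u v : ℕ → V → ℕ) {τ : (Fin r → V) → Prop}
    (hτ : ∀ x, τ x ↔ ∃ l, l < m ∧ u l (x p) = v l (x q)) :
    Cov (LCell.mem (r := r) (V := V)) (fun _ => K) m τ := by
  intro C
  refine ⟨ℕ, range m, fun l => C.add p q (u l) (v l), 1, zero_le_one, ?_, ?_, ?_⟩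
  · intro l hl x hx
    rw [LCell.mem_add hpq] at hx
    exact ⟨hx.1, (hτ x).2 ⟨l, mem_range.1 hl, hx.2⟩⟩
  · intro x hx he
    obtain ⟨l, hl, hlx⟩ := (hτ x).1 he
    rw [one_mul]
    have h1 : ind (x ∈ (C.add p q (u l) (v l)).mem) = 1 := by
      refine ind_of ?_
      rw [LCell.mem_add hpq]
      exact ⟨hx, hlx⟩
    have h2 := single_le_sum (f := fun l => ind (x ∈ (C.add p q (u l) (v l)).mem))
      (fun l _ => ind_nonneg _) (mem_range.2 hl)
    exact h1.symm.le.trans h2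
  · rw [one_mul, sum_const, card_range, nsmul_eq_mul]

lemma norm_eq (hr : 2 ≤ r) {τ : (Fin r → V) → Prop} (h : IsEq τ) :
    ∃ (p q : Fin r) (f g : V → ℕ), p < q ∧ ∀ x, τ x ↔ f (x p) = g (x q) := by
  obtain ⟨p, q, f, g, h⟩ := h
  rcases lt_trichotomy p q with hpq | hpq | hpq
  · exact ⟨p, q, f, g, hpq, h⟩
  · have : Nontrivial (Fin r) := Fin.nontrivial_iff_two_le.2 hr
    obtain ⟨s, hs⟩ := exists_ne p
    rcases lt_or_gt_of_ne hs with h1 | h1
    · refine ⟨s, p, fun _ => 1, fun v => if f v = g v then 1 else 0, h1, fun x => ?_⟩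
      rw [h, ← hpq]
      by_cases h0 : f (x p) = g (x p)
      · simp [h0]
      · simp [h0]
    · refine ⟨p, s, fun v => if f v = g v then 1 else 0, fun _ => 1, h1, fun x => ?_⟩
      rw [h, ← hpq]
      by_cases h0 : f (x p) = g (x p)
      · simp [h0]
      · simp [h0]
  · exact ⟨q, p, g, f, hpq, fun x => (h x).trans eq_comm⟩

lemma lcov_isEq {K : ℝ} (hK : 0 ≤ K) (hr : 2 ≤ r) {τ : (Fin r → V) → Prop} (h : IsEq τ) :
    Cov (LCell.mem (r := r) (V := V)) (fun _ => K) 1 τ ∧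
      Cov (LCell.mem (r := r) (V := V)) (fun _ => K) 4 fun x => ¬ τ x := by
  obtain ⟨p, q, f, g, hpq, h⟩ := norm_eq hr h
  exact ⟨cov_congr (fun x => (h x).symm) (lcov_eq hpq f g),
    cov_congr (fun x => not_congr (h x).symm) (lcov_ne hK hpq f g)⟩

lemma lcov_test [Fintype V] {K : ℝ} (hK : 0 ≤ K) (hr : 2 ≤ r) {m : ℕ} (hm4 : 4 ≤ m)
    (hm : Fintype.card V < 2 ^ m) {τ : (Fin r → V) → Prop} (h : IsEq τ ∨ IsCmp τ) :
    Cov (LCell.mem (r := r) (V := V)) (fun _ => K) m τ ∧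
      Cov (LCell.mem (r := r) (V := V)) (fun _ => K) m fun x => ¬ τ x := by
  have h4m : (4 : ℝ) ≤ m := by exact_mod_cast hm4
  have hEq : ∀ {σ : (Fin r → V) → Prop}, IsEq σ →
      Cov (LCell.mem (r := r) (V := V)) (fun _ => K) m σ ∧
        Cov (LCell.mem (r := r) (V := V)) (fun _ => K) m fun x => ¬ σ x := by
    intro σ hσ
    obtain ⟨h1, h2⟩ := lcov_isEq hK hr hσ
    exact ⟨cov_mono (fun _ => hK) (by linarith) h1, cov_mono (fun _ => hK) h4m h2⟩
  rcases h with h | ⟨p, q, f, g, h⟩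
  · exact hEq h
  · obtain ⟨u, v, huv⟩ := stair hm f g
    obtain ⟨u', v', huv'⟩ := stair_not hm f g
    rcases lt_trichotomy p q with hpq | hpq | hpq
    · exact ⟨lcov_many hpq m u v fun x => (h x).trans (huv _ _),
        lcov_many hpq m u' v' fun x => (not_congr (h x)).trans (huv' _ _)⟩
    · have : Nontrivial (Fin r) := Fin.nontrivial_iff_two_le.2 hr
      obtain ⟨s, hs⟩ := exists_ne p
      refine hEq ⟨p, s, fun v => if f v ≤ g v then 1 else 0, fun _ => 1, fun x => ?_⟩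
      rw [h, ← hpq]
      by_cases h0 : f (x p) ≤ g (x p)
      · simp [h0]
      · simp [h0]
    · refine ⟨lcov_many hpq m v u fun x => (h x).trans ((huv _ _).trans ?_),
        lcov_many hpq m v' u' fun x => (not_congr (h x)).trans ((huv' _ _).trans ?_)⟩
      · exact exists_congr fun l => and_congr_right fun _ => eq_comm
      · exact exists_congr fun l => and_congr_right fun _ => eq_comm

end Pool.Agent.X59.EQ
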