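import Pool.Agent.X59.EQ.G

/-! Cells in sets in which any two coordinates determine few tuples. -/

set_option autoImplicit false
open Finset
open scoped Classical

namespace Pool.Agent.X59.EQ

variable {r : ℕ} {V : Type}

/-- ordered pairs -/
abbrev Prs (r : ℕ) : Type := {z : Fin r × Fin r // z.1 < z.2}

/-- any two coordinates determine at most `D` tuples -/
def Codeg (T : Finset (Fin r → V)) (D : ℕ) : Prop :=
  ∀ p q : Fin r, p ≠ q → ∀ a b : V, (flt T fun x => x p = a ∧ x q = b).card ≤ D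

/-- the size of a label class -/
noncomputable def LCell.cls (C : LCell r V) (p q : Fin r) (u : ℕ) : ℕ :=
  (flt (C.A p) fun v => C.F p q v = u).card

lemma light [Fintype V] {T : Finset (Fin r → V)} {D : ℕ} (hD : Codeg T D) {θ : ℝ} (hθ : 0 ≤ θ)
    (C : LCell r V) (hC : ∀ x ∈ C.mem, x ∈ T) {p q : Fin r} (hpq : p < q) :
    ((flt C.mem fun x => (C.cls p q (C.F p q (x p)) : ℝ) ≤ θ * Fintype.card V).card : ℝ) ≤
      D * (θ * (Fintype.card V) ^ 2) := by
  set n : ℝ := ((Fintype.card V : ℕ) : ℝ) with hn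
  have hn0 : 0 ≤ n := Nat.cast_nonneg _
  set L := flt C.mem fun x => (C.cls p q (C.F p q (x p)) : ℝ) ≤ θ * n with hL
  set M : Finset (V × V) := flt univ fun z => z.1 ∈ C.A p ∧ C.F p q z.1 = C.G p q z.2 ∧
    (C.cls p q (C.G p q z.2) : ℝ) ≤ θ * n with hM
  have h1 : L.card ≤ D * (L.image fun x => (x p, x q)).card := by
    refine card_le_mul_card_image L D fun a _ => ?_
    refine le_trans (card_le_card fun x hx => ?_) (hD p q hpq.ne a.1 a.2)
    rw [mem_filter, hL, mem_flt] at hx
    rw [mem_flt]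
    refine ⟨hC x hx.1.1, ?_, ?_⟩
    · rw [← hx.2]
    · rw [← hx.2]
  have h2 : (L.image fun x => (x p, x q)) ⊆ M := by
    intro z hz
    rw [mem_image] at hz
    obtain ⟨x, hx, rfl⟩ := hz
    rw [hL, mem_flt] at hx
    rw [hM, mem_flt]
    have h3 := (LCell.mem_mem.1 hx.1)
    have h4 := h3.2 p q hpq
    refine ⟨mem_univ _, h3.1 p, h4, ?_⟩
    show (C.cls p q (C.G p q (x q)) : ℝ) ≤ θ * n
    rw [← h4]
    exact hx.2
  have h3 : (M.card : ℝ) ≤ n * (θ * n) := by
    have h4 : M.card = ∑ b : V, (M.filter fun z => z.2 = b).card :=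
      card_eq_sum_card_fiberwise fun z _ => mem_univ _
    rw [h4]
    push_cast
    have h5 : ∀ b ∈ (univ : Finset V), ((M.filter fun z => z.2 = b).card : ℝ) ≤ θ * n := by
      intro b _
      by_cases hb : (C.cls p q (C.G p q b) : ℝ) ≤ θ * n
      · refine le_trans ?_ hb
        have : (M.filter fun z => z.2 = b).card ≤ C.cls p q (C.G p q b) := by
          unfold LCell.cls
          refine card_le_card_of_injOn (fun z => z.1) ?_ ?_
          · intro z hz
            rw [mem_coe, mem_filter, hM, mem_flt] at hz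
            rw [mem_coe, mem_flt]
            refine ⟨hz.1.2.1, ?_⟩
            rw [← hz.2]
            exact hz.1.2.2.1
          · intro z hz z' hz' h
            rw [mem_coe, mem_filter] at hz hz'
            exact Prod.ext h (hz.2.trans hz'.2.symm)
        exact_mod_cast this
      · have : (M.filter fun z => z.2 = b) = ∅ := by
          rw [filter_eq_empty_iff]
          intro z hz hzb
          rw [hM, mem_flt] at hz
          apply hb
          rw [← hzb]
          exact hz.2.2.2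
        rw [this, card_empty, Nat.cast_zero]
        positivity
    refine (sum_le_sum h5).trans (le_of_eq ?_)
    rw [sum_const, card_univ, nsmul_eq_mul]
  have h6 : (L.card : ℝ) ≤ D * M.card := by
    exact_mod_cast h1.trans (Nat.mul_le_mul_left _ (card_le_card h2))
  calc (L.card : ℝ) ≤ D * M.card := h6
    _ ≤ D * (n * (θ * n)) := mul_le_mul_of_nonneg_left h3 (Nat.cast_nonneg _)
    _ = _ := by ring

lemma heavy_labels [Fintype V] {θ : ℝ} (hθ : 0 < θ) (hn0 : 0 < Fintype.card V)
    (C : LCell r V) (p q : Fin r) :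
    ((flt ((C.A p).image (C.F p q)) fun u => θ * Fintype.card V < C.cls p q u).card : ℝ) ≤
      1 / θ := by
  set n : ℝ := ((Fintype.card V : ℕ) : ℝ) with hn
  have hn1 : 0 < n := by rw [hn]; exact_mod_cast hn0
  set H := flt ((C.A p).image (C.F p q)) fun u => θ * n < C.cls p q u with hH
  have h1 : (H.card : ℝ) * (θ * n) ≤ ∑ u ∈ H, (C.cls p q u : ℝ) := by
    rw [← nsmul_eq_mul, ← sum_const]
    refine sum_le_sum fun u hu => ?_
    rw [hH, mem_flt] at hu
    exact hu.2.le
  have h2 : ∑ u ∈ H, (C.cls p q u : ℝ) ≤ ∑ u ∈ (C.A p).image (C.F p q), (C.cls p q u : ℝ) := by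
    refine sum_le_sum_of_subset_of_nonneg ?_ fun u _ _ => Nat.cast_nonneg _
    intro u hu
    rw [hH, mem_flt] at hu
    exact hu.1
  have h3 : ∑ u ∈ (C.A p).image (C.F p q), (C.cls p q u : ℝ) = (C.A p).card :=
    sum_fibre (C.A p) (C.F p q) _ (subset_refl _)
  have h4 : ((C.A p).card : ℝ) ≤ n := by
    rw [hn]
    exact_mod_cast card_le_univ _
  rw [le_div_iff₀ hθ]
  have h5 : (H.card : ℝ) * θ * n ≤ 1 * n := by
    calc (H.card : ℝ) * θ * n = H.card * (θ * n) := by ring
      _ ≤ _ := h1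
      _ ≤ _ := h2
      _ = _ := h3
      _ ≤ n := h4
      _ = 1 * n := (one_mul n).symm
  exact le_of_mul_le_mul_right h5 hn1

/-- a box with given labels -/
lemma box_small {T : Finset (Fin r → V)} {D : ℕ} (hr : 3 ≤ r) (hD : Codeg T D)
    (B : Fin r → Finset V) (hB : ∀ x : Fin r → V, (∀ i, x i ∈ B i) → x ∈ T) :
    (box B).card ≤ D ^ r := by
  rcases (box B).eq_empty_or_nonempty with h0 | ⟨x0, hx0⟩
  · rw [h0, card_empty]
    exact Nat.zero_le _
  · rw [mem_box] at hx0
    have h1 : ∀ i, (B i).card ≤ D := by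
      intro i
      obtain ⟨p, q, hpi, hqi, hpq⟩ : ∃ p q : Fin r, p ≠ i ∧ q ≠ i ∧ p ≠ q := by
        have hc : 1 < ((univ : Finset (Fin r)).erase i).card := by
          rw [card_erase_of_mem (mem_univ i), card_univ, Fintype.card_fin]
          omega
        obtain ⟨p, hp, q, hq, hpq⟩ := one_lt_card.1 hc
        exact ⟨p, q, (mem_erase.1 hp).1, (mem_erase.1 hq).1, hpq⟩
      refine le_trans ?_ (hD p q hpq (x0 p) (x0 q))
      refine card_le_card_of_injOn (fun v => Function.update x0 i v) ?_ ?_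
      · intro v hv
        rw [mem_coe, mem_flt]
        refine ⟨hB _ fun j => ?_, Function.update_of_ne hpi _ _, Function.update_of_ne hqi _ _⟩
        show Function.update x0 i v j ∈ B j
        by_cases hj : j = i
        · rw [hj, Function.update_self]
          exact hv
        · rw [Function.update_of_ne hj]
          exact hx0 j
      · intro v _ w _ h
        have h2 := congrFun h i
        simpa using h2
    rw [card_box]
    calc ∏ i, (B i).card ≤ ∏ _i : Fin r, D := prod_le_prod' fun i _ => h1 i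
      _ = D ^ r := by rw [prod_const, card_univ, Fintype.card_fin]

lemma heavy [Fintype V] {T : Finset (Fin r → V)} {D : ℕ} (hr : 3 ≤ r) (hD : Codeg T D) {θ : ℝ}
    (hθ : 0 < θ) (hn0 : 0 < Fintype.card V) (C : LCell r V) (hC : ∀ x ∈ C.mem, x ∈ T) :
    ((flt C.mem fun x => ∀ z : Prs r,
      θ * Fintype.card V < C.cls z.1.1 z.1.2 (C.F z.1.1 z.1.2 (x z.1.1))).card : ℝ) ≤
      D ^ r * (1 / θ) ^ Fintype.card (Prs r) := by
  set n : ℝ := ((Fintype.card V : ℕ) : ℝ) with hn
  set H := flt C.mem fun x => ∀ z : Prs r,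
      θ * n < C.cls z.1.1 z.1.2 (C.F z.1.1 z.1.2 (x z.1.1)) with hH
  set φ : (Fin r → V) → (Prs r → ℕ) := fun x z => C.F z.1.1 z.1.2 (x z.1.1) with hφ
  set Hv : Prs r → Finset ℕ := fun z =>
    flt ((C.A z.1.1).image (C.F z.1.1 z.1.2)) fun u => θ * n < C.cls z.1.1 z.1.2 u with hHv
  have h1 : H.card ≤ D ^ r * (H.image φ).card := by
    refine card_le_mul_card_image H (D ^ r) fun u _ => ?_
    set B : Fin r → Finset V := fun i => flt (C.A i) fun v =>
      (∀ z : Prs r, z.1.1 = i → C.F z.1.1 z.1.2 v = u z) ∧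
      ∀ z : Prs r, z.1.2 = i → C.G z.1.1 z.1.2 v = u z with hB
    refine le_trans (card_le_card fun x hx => ?_) (box_small hr hD B fun x hx => ?_)
    · rw [mem_filter, hH, mem_flt] at hx
      obtain ⟨⟨h2, _⟩, h3⟩ := hx
      rw [LCell.mem_mem] at h2
      rw [mem_box]
      intro i
      rw [hB, mem_flt]
      refine ⟨h2.1 i, ?_, ?_⟩
      · rintro z rfl
        exact congrFun h3 z
      · rintro z rfl
        rw [← h2.2 z.1.1 z.1.2 z.2]
        exact congrFun h3 z
    · refine hC x (LCell.mem_mem.2 ⟨fun i => ?_, fun p q hpq => ?_⟩)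
      · have := hx i
        rw [hB, mem_flt] at this
        exact this.1
      · have h2 := hx p
        have h3 := hx q
        rw [hB, mem_flt] at h2 h3
        exact (h2.2.1 ⟨(p, q), hpq⟩ rfl).trans (h3.2.2 ⟨(p, q), hpq⟩ rfl).symm
  have h2 : H.image φ ⊆ Fintype.piFinset Hv := by
    intro u hu
    rw [mem_image] at hu
    obtain ⟨x, hx, rfl⟩ := hu
    rw [hH, mem_flt] at hx
    rw [Fintype.mem_piFinset]
    intro z
    rw [hHv, mem_flt]
    exact ⟨mem_image_of_mem _ ((LCell.mem_mem.1 hx.1).1 z.1.1), hx.2 z⟩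
  have h3 : ((Fintype.piFinset Hv).card : ℝ) ≤ (1 / θ) ^ Fintype.card (Prs r) := by
    rw [Fintype.card_piFinset]
    push_cast
    calc ∏ z : Prs r, ((Hv z).card : ℝ) ≤ ∏ _z : Prs r, (1 / θ) :=
          prod_le_prod (fun z _ => Nat.cast_nonneg _)
            fun z _ => heavy_labels hθ hn0 C z.1.1 z.1.2
      _ = _ := by rw [prod_const, card_univ]
  have h4 : (H.card : ℝ) ≤ (D : ℝ) ^ r * ((H.image φ).card : ℝ) := by exact_mod_cast h1
  have h5 : ((H.image φ).card : ℝ) ≤ ((Fintype.piFinset Hv).card : ℝ) := by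
    exact_mod_cast card_le_card h2
  exact h4.trans (mul_le_mul_of_nonneg_left (h5.trans h3) (by positivity))

/-- the bound for a cell -/
theorem join_bound [Fintype V] {T : Finset (Fin r → V)} {D : ℕ} (hr : 3 ≤ r) (hD : Codeg T D)
    {θ : ℝ} (hθ : 0 < θ) (C : LCell r V) (hC : ∀ x ∈ C.mem, x ∈ T) :
    (C.mem.card : ℝ) ≤ Fintype.card (Prs r) * (D * (θ * (Fintype.card V) ^ 2)) +
      D ^ r * (1 / θ) ^ Fintype.card (Prs r) := by
  rcases Nat.eq_zero_or_pos (Fintype.card V) with h0 | hn0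
  · have : C.mem = ∅ := by
      rw [eq_empty_iff_forall_notMem]
      intro x _
      have : IsEmpty V := Fintype.card_eq_zero_iff.1 h0
      exact this.elim (x ⟨0, by omega⟩)
    rw [this, card_empty, Nat.cast_zero]
    positivity
  · set H := flt C.mem fun x => ∀ z : Prs r,
      θ * Fintype.card V < C.cls z.1.1 z.1.2 (C.F z.1.1 z.1.2 (x z.1.1)) with hH
    set L : Prs r → Finset (Fin r → V) := fun z =>
      flt C.mem fun x => (C.cls z.1.1 z.1.2 (C.F z.1.1 z.1.2 (x z.1.1)) : ℝ) ≤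
        θ * Fintype.card V with hL
    have h1 : C.mem ⊆ H ∪ univ.biUnion L := by
      intro x hx
      rw [mem_union]
      by_cases h : ∀ z : Prs r,
        θ * Fintype.card V < C.cls z.1.1 z.1.2 (C.F z.1.1 z.1.2 (x z.1.1))
      · left
        rw [hH, mem_flt]
        exact ⟨hx, h⟩
      · right
        push Not at h
        obtain ⟨z, hz⟩ := h
        rw [mem_biUnion]
        refine ⟨z, mem_univ _, ?_⟩
        rw [hL, mem_flt]
        exact ⟨hx, hz⟩
    have h2 : C.mem.card ≤ H.card + ∑ z, (L z).card :=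
      (card_le_card h1).trans ((card_union_le _ _).trans (Nat.add_le_add_left card_biUnion_le _))
    have h3 : (C.mem.card : ℝ) ≤ H.card + ∑ z, ((L z).card : ℝ) := by exact_mod_cast h2
    have h4 : ∑ z, ((L z).card : ℝ) ≤
        Fintype.card (Prs r) * (D * (θ * (Fintype.card V) ^ 2)) := by
      refine (sum_le_sum fun z _ => light hD hθ.le C hC z.2).trans (le_of_eq ?_)
      rw [sum_const, card_univ, nsmul_eq_mul]
    have h5 := heavy hr hD hθ hn0 C hC
    linarith

/-- the cell of all tuples -/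
def topCell (r : ℕ) (V : Type) [Fintype V] : LCell r V where
  A := fun _ => univ
  F := fun _ _ _ => 0
  G := fun _ _ _ => 0

lemma mem_topCell [Fintype V] (x : Fin r → V) : x ∈ (topCell r V).mem :=
  LCell.mem_mem.2 ⟨fun _ => mem_univ _, fun _ _ _ => rfl⟩

/-- the optimal threshold -/
lemma optimum {P D n : ℝ} (r : ℕ) (k : ℕ) (hP : P = k) (hn : 1 ≤ n) :
    P * (D * (n ^ (-(2 / (P + 1))) * n ^ 2)) + D ^ r * (1 / n ^ (-(2 / (P + 1)))) ^ k =
      (P * D + D ^ r) * n ^ (2 - 2 / (P + 1)) := by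
  have hn0 : 0 < n := by linarith
  have hP0 : 0 ≤ P := by rw [hP]; exact Nat.cast_nonneg _
  have e1 : n ^ (-(2 / (P + 1))) * n ^ 2 = n ^ (2 - 2 / (P + 1)) := by
    rw [← Real.rpow_natCast n 2, ← Real.rpow_add hn0]
    congr 1
    push_cast
    ring
  have e2 : (1 / n ^ (-(2 / (P + 1)))) ^ k = n ^ (2 - 2 / (P + 1)) := by
    rw [Real.rpow_neg hn0.le, one_div, inv_inv, ← Real.rpow_natCast, ← Real.rpow_mul hn0.le, ← hP]
    congr 1
    field_simp
    ring
  rw [e1, e2]
  ring

theorem lcnt_eq [Fintype V] {T : Finset (Fin r → V)} {D : ℕ} (hr : 3 ≤ r) (hD : Codeg T D)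
    (hn : 1 ≤ Fintype.card V) (t : DT (Fin r → V)) (ht : t.In IsEq) (hT : ∀ x, t.acc x ↔ x ∈ T) :
    (T.card : ℝ) ≤ 5 ^ t.depth * ((Fintype.card (Prs r) * D + D ^ r) *
      (Fintype.card V : ℝ) ^ (2 - 2 / ((Fintype.card (Prs r) : ℝ) + 1))) := by
  have hn' : (1 : ℝ) ≤ Fintype.card V := by exact_mod_cast hn
  rw [← optimum (D := D) r (Fintype.card (Prs r)) rfl hn']
  have h := dt_count (mem := LCell.mem (r := r) (V := V)) (Φ := fun _ => _)
    (fun _ => by positivity) (P := IsEq) (c := 1) (c' := 4) (by norm_num)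
    (fun τ hτ => lcov_isEq (by positivity) (by omega) hτ) (S := fun x => x ∈ T)
    (fun C hC => join_bound hr hD (θ := (Fintype.card V : ℝ) ^
      (-(2 / ((Fintype.card (Prs r) : ℝ) + 1)))) (by positivity) C hC) t ht (topCell r V)
    (fun x _ hx => (hT x).1 hx)
  have e : flt (topCell r V).mem t.acc = T := by
    ext x
    rw [mem_flt]
    exact ⟨fun h => (hT x).1 h.2, fun h => ⟨mem_topCell x, (hT x).2 h⟩⟩
  rw [e] at h
  have e3 : (1 : ℝ) + 4 = 5 := by norm_num
  rw [e3] at h
  exact h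

theorem lcnt_cmp [Fintype V] {T : Finset (Fin r → V)} {D : ℕ} (hr : 3 ≤ r) (hD : Codeg T D)
    (hn : 1 ≤ Fintype.card V) {m : ℕ} (hm4 : 4 ≤ m) (hm : Fintype.card V < 2 ^ m)
    (t : DT (Fin r → V)) (ht : t.In fun τ => IsEq τ ∨ IsCmp τ) (hT : ∀ x, t.acc x ↔ x ∈ T) :
    (T.card : ℝ) ≤ (2 * m) ^ t.depth * ((Fintype.card (Prs r) * D + D ^ r) *
      (Fintype.card V : ℝ) ^ (2 - 2 / ((Fintype.card (Prs r) : ℝ) + 1))) := by
  have hn' : (1 : ℝ) ≤ Fintype.card V := by exact_mod_cast hn
  have hm4' : (4 : ℝ) ≤ m := by exact_mod_cast hm4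
  rw [← optimum (D := D) r (Fintype.card (Prs r)) rfl hn']
  have h := dt_count (mem := LCell.mem (r := r) (V := V)) (Φ := fun _ => _)
    (fun _ => by positivity) (P := fun τ => IsEq τ ∨ IsCmp τ) (c := m) (c' := m) (by linarith)
    (fun τ hτ => lcov_test (by positivity) (by omega) hm4 hm hτ) (S := fun x => x ∈ T)
    (fun C hC => join_bound hr hD (θ := (Fintype.card V : ℝ) ^
      (-(2 / ((Fintype.card (Prs r) : ℝ) + 1)))) (by positivity) C hC) t ht (topCell r V)
    (fun x _ hx => (hT x).1 hx)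
  have e : flt (topCell r V).mem t.acc = T := by
    ext x
    rw [mem_flt]
    exact ⟨fun h => (hT x).1 h.2, fun h => ⟨mem_topCell x, (hT x).2 h⟩⟩
  rw [e] at h
  have e3 : (m : ℝ) + m = 2 * m := by ring
  rw [e3] at h
  exact h

lemma card_prs (r : ℕ) : 2 * Fintype.card (Prs r) = r * r - r := by
  have h1 : Fintype.card (Prs r) =
      ((univ : Finset (Fin r × Fin r)).filter fun z => z.1 < z.2).card := by
    rw [Fintype.card_subtype]
  have h2 : ((univ : Finset (Fin r × Fin r)).filter fun z => z.2 < z.1).card =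
      ((univ : Finset (Fin r × Fin r)).filter fun z => z.1 < z.2).card := by
    refine card_bij (fun z _ => (z.2, z.1)) ?_ ?_ ?_
    · intro z hz
      rw [mem_filter] at hz ⊢
      exact ⟨mem_univ _, hz.2⟩
    · intro z _ w _ h
      rw [Prod.mk.injEq] at h
      exact Prod.ext h.2 h.1
    · intro z hz
      rw [mem_filter] at hz
      exact ⟨(z.2, z.1), mem_filter.2 ⟨mem_univ _, hz.2⟩, rfl⟩
  have h3 : (univ : Finset (Fin r)).offDiag =
      ((univ : Finset (Fin r × Fin r)).filter fun z => z.1 < z.2) ∪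
        ((univ : Finset (Fin r × Fin r)).filter fun z => z.2 < z.1) := by
    ext z
    rw [mem_offDiag, mem_union, mem_filter, mem_filter]
    constructor
    · rintro ⟨_, _, h⟩
      rcases lt_or_gt_of_ne h with h | h
      · exact Or.inl ⟨mem_univ _, h⟩
      · exact Or.inr ⟨mem_univ _, h⟩
    · rintro (⟨_, h⟩ | ⟨_, h⟩)
      · exact ⟨mem_univ _, mem_univ _, h.ne⟩
      · exact ⟨mem_univ _, mem_univ _, h.ne'⟩
  have h4 : Disjoint ((univ : Finset (Fin r × Fin r)).filter fun z => z.1 < z.2)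
      ((univ : Finset (Fin r × Fin r)).filter fun z => z.2 < z.1) := by
    rw [disjoint_left]
    intro z hz hz'
    rw [mem_filter] at hz hz'
    exact absurd hz.2 (not_lt.2 hz'.2.le)
  have h5 := congrArg card h3
  rw [card_union_of_disjoint h4, h2, ← h1, offDiag_card, card_univ, Fintype.card_fin] at h5
  omega

end Pool.Agent.X59.EQ
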